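import Pool.Agent.N877.JT.Mom

/-!
# JT: the joint law
-/

set_option autoImplicit false
set_option linter.all false

open scoped Classical

namespace Pool.Agent.N877.JT

open Finset Module
open Pool.Agent.N916.GB (ps sx mm mm_pos mm_one_le In bon_even bon_odd eta eta_sum)
open Pool.Agent.N916.MO (EE fx fy Sy Nde Ix Sg)
open Pool.Agent.N916.PQ (Hy Gc Kr Gc_iff)
open Pool.Agent.Y703.CQ (c2)

/-- **the joint law** -/
theorem jmain : JMain := by
  intro ε hε
  -- the truncation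
  have hlim := eta_sum
  rw [Metric.tendsto_atTop] at hlim
  obtain ⟨K0, hK0⟩ := hlim (ε / 2) (by linarith)
  set K : ℕ := 2 * K0 with hK
  have hε' : 0 < ε / 2 / (K + 2) := by positivity
  choose V hV using fun k => mom_k k (ε / 2 / (K + 2)) hε'
  obtain ⟨V1, hV1⟩ : ∃ V1, ∀ k, k < K + 2 → V k ≤ V1 :=
    ⟨(range (K + 2)).sup V, fun k hk => le_sup (f := V) (mem_range.2 hk)⟩
  refine ⟨V1 + 6, ?_⟩
  intro R C J E0 CC CC' _ _ _ _ _ _ _ _ _ M X Y u k0 J₀ n0 B ν υ m F G Φ Ψ Θ hy cr rn ce hev cc cd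
    hk0 jc sf nd hm ru rν rυ rd
  have H : JH M X Y u k0 J₀ n0 B ν υ m F G Φ Ψ Θ ((V1 + 6) * (n0 + 1)) :=
    ⟨hy, cr, rn, ce, hev, cc, cd, jc, sf, nd, hm, ru, rν, rυ, rd⟩
  have hVV : 6 * n0 + V1 ≤ (V1 + 6) * (n0 + 1) := by nlinarith
  set Q : (ps J → ZMod 2) → Prop := fun σ => Nde B (Sg k0 σ) with hQ
  set P : ℝ := ((univ.filter fun σ : ps J → ZMod 2 => Gc M Y (sx σ) ∧ Nde B (Sg k0 σ)).card : ℝ) /
    2 ^ (ps J).card with hP
  have hp : (0 : ℝ) < 2 ^ (ps J).card := by positivity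
  set T : ℕ → ℝ := fun k => (∑ σ : ps J → ZMod 2, if Nde B (Sg k0 σ) then
    In k (finrank (ZMod 2) (Kr M k0 (sx σ))) else 0) / 2 ^ (ps J).card with hT
  have hTb : ∀ k, k < K + 2 → |T k - c2| ≤ ε / 2 / (K + 2) := by
    intro k hk
    exact hV k R C J E0 CC CC' M X Y u k0 J₀ n0 B ν υ m F G Φ Ψ Θ _ H
      ((Nat.add_le_add_left (hV1 k hk) _).trans hVV)
  have hPs : ((univ.filter fun σ : ps J → ZMod 2 => Gc M Y (sx σ) ∧ Nde B (Sg k0 σ)).card : ℝ) =
      ∑ σ : ps J → ZMod 2, if Nde B (Sg k0 σ) then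
        (if finrank (ZMod 2) (Kr M k0 (sx σ)) = 0 then (1 : ℝ) else 0) else 0 := by
    rw [card_filter, Nat.cast_sum]
    refine sum_congr rfl fun σ _ => ?_
    by_cases h : Nde B (Sg k0 σ)
    · rw [if_pos h]
      by_cases h1 : Gc M Y (sx σ)
      · rw [if_pos ⟨h1, h⟩, if_pos ((Gc_iff hy k0 _).1 h1), Nat.cast_one]
      · rw [if_neg fun h' => h1 h'.1, if_neg fun h' => h1 ((Gc_iff hy k0 _).2 h'), Nat.cast_zero]
    · rw [if_neg h, if_neg fun h' => h h'.2, Nat.cast_zero]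
  have hsw : ∀ n : ℕ, ∑ k ∈ range n, (-1) ^ k * T k / mm k =
      (∑ σ : ps J → ZMod 2, if Nde B (Sg k0 σ) then (∑ k ∈ range n,
        (-1) ^ k * In k (finrank (ZMod 2) (Kr M k0 (sx σ))) / mm k) else 0) /
        2 ^ (ps J).card := by
    intro n
    have h1 : ∀ σ : ps J → ZMod 2, (if Nde B (Sg k0 σ) then (∑ k ∈ range n,
        (-1) ^ k * In k (finrank (ZMod 2) (Kr M k0 (sx σ))) / mm k) else 0) =
        ∑ k ∈ range n, (-1) ^ k * (if Nde B (Sg k0 σ) then
          In k (finrank (ZMod 2) (Kr M k0 (sx σ))) else 0) / mm k := by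
      intro σ
      by_cases h : Nde B (Sg k0 σ)
      · rw [if_pos h]
        exact sum_congr rfl fun k _ => by rw [if_pos h]
      · rw [if_neg h]
        symm
        exact sum_eq_zero fun k _ => by rw [if_neg h, mul_zero, zero_div]
    rw [sum_congr rfl fun σ _ => h1 σ, sum_comm, sum_div]
    refine sum_congr rfl fun k _ => ?_
    rw [hT]
    simp only
    rw [← sum_div, ← mul_sum]
    ring
  have hup : P ≤ ∑ k ∈ range (K + 1), (-1) ^ k * T k / mm k := by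
    rw [hsw, hP, hPs]
    refine div_le_div_of_nonneg_right (sum_le_sum fun σ _ => ?_) hp.le
    split_ifs
    · exact le_trans (le_of_eq (if_pos ‹_›).symm) (bon_even ⟨K0, by omega⟩ _)
    · exact le_trans (le_of_eq (if_neg ‹_›).symm) (bon_even ⟨K0, by omega⟩ _)
    · exact le_refl _
  have hlo : ∑ k ∈ range (K + 2), (-1) ^ k * T k / mm k ≤ P := by
    rw [hsw, hP, hPs]
    refine div_le_div_of_nonneg_right (sum_le_sum fun σ _ => ?_) hp.le
    split_ifs
    · exact le_trans (bon_odd (K := K + 1) ⟨K0, by omega⟩ _) (le_of_eq (if_pos ‹_›))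
    · exact le_trans (bon_odd (K := K + 1) ⟨K0, by omega⟩ _) (le_of_eq (if_neg ‹_›))
    · exact le_refl _
  have herr : ∀ n : ℕ, n ≤ K + 2 → |∑ k ∈ range n, (-1) ^ k * T k / mm k -
      (∑ k ∈ range n, (-1 : ℝ) ^ k / mm k) * c2| ≤ ε / 2 := by
    intro n hn
    rw [sum_mul, ← sum_sub_distrib]
    refine (abs_sum_le_sum_abs _ _).trans ?_
    have h1 : ∀ k ∈ range n, |(-1) ^ k * T k / mm k - (-1 : ℝ) ^ k / mm k * c2| ≤
        ε / 2 / (K + 2) := by
      intro k hk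
      rw [mem_range] at hk
      have h2 : (-1) ^ k * T k / mm k - (-1 : ℝ) ^ k / mm k * c2 =
        (-1) ^ k * ((T k - c2) / mm k) := by
        ring
      rw [h2, abs_mul, abs_pow, abs_neg, abs_one, one_pow, one_mul, abs_div, abs_of_pos (mm_pos k)]
      exact (div_le_self (abs_nonneg _) (mm_one_le k)).trans (hTb k (by omega))
    refine (sum_le_sum h1).trans ?_
    rw [sum_const, card_range, nsmul_eq_mul]
    have h3 : (n : ℝ) ≤ K + 2 := by exact_mod_cast hn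
    calc (n : ℝ) * (ε / 2 / (K + 2)) ≤ (K + 2) * (ε / 2 / (K + 2)) :=
          mul_le_mul_of_nonneg_right h3 hε'.le
      _ = ε / 2 := by
          have : (0 : ℝ) < K + 2 := by positivity
          field_simp
  have h6 := hK0 (K + 1) (by omega)
  have h7 := hK0 (K + 2) (by omega)
  rw [Real.dist_eq] at h6 h7
  have h8 := herr (K + 1) (by omega)
  have h9 := herr (K + 2) le_rfl
  have hc := c201
  have hc6 : |(∑ k ∈ range (K + 1), (-1 : ℝ) ^ k / mm k) * c2 - eta * c2| ≤ ε / 2 := by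
    rw [← sub_mul, abs_mul, abs_of_nonneg hc.1]
    calc _ ≤ ε / 2 * 1 := mul_le_mul h6.le hc.2 hc.1 (by linarith)
      _ = ε / 2 := mul_one _
  have hc7 : |(∑ k ∈ range (K + 2), (-1 : ℝ) ^ k / mm k) * c2 - eta * c2| ≤ ε / 2 := by
    rw [← sub_mul, abs_mul, abs_of_nonneg hc.1]
    calc _ ≤ ε / 2 * 1 := mul_le_mul h7.le hc.2 hc.1 (by linarith)
      _ = ε / 2 := mul_one _
  rw [abs_le] at h8 h9 hc6 hc7 ⊢
  constructor
  · linarith [h9.1, hc7.1]
  · linarith [h8.2, hc6.2]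

end Pool.Agent.N877.JT
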