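import Pool.Agent.N877.JT.Rp

/-!
# JT: the probability of the nondegenerate forms under linear conditions
-/

set_option autoImplicit false
set_option linter.all false

open scoped Classical

namespace Pool.Agent.N877.JT

open Finset Module
open Pool.Agent.N916.MO (EE fx fy sB sB_apply sB_add sB_fx sB_fy Sy Nde mem_Sy sB_alt few)
open Pool.Agent.Y703.CQ (c2)

theorem card_eq' {α : Type} {p q : α → Prop} {ip : DecidablePred p} {iq : DecidablePred q}
    {S : Finset α} (h : ∀ m ∈ S, p m ↔ q m) :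
    (@Finset.filter _ p ip S).card = (@Finset.filter _ q iq S).card := by
  refine congrArg Finset.card (Finset.ext fun m => ?_)
  rw [@Finset.mem_filter _ p ip, @Finset.mem_filter _ q iq]
  exact and_congr_right fun hm => h m hm

theorem card_tr {α : Type} [Fintype α] {p : α → Prop} {ip : DecidablePred p} (h : ∀ m, p m) :
    (@Finset.filter _ p ip univ).card = Fintype.card α := by
  rw [← Finset.card_univ]
  refine congrArg Finset.card (Finset.ext fun m => ?_)
  rw [@Finset.mem_filter _ p ip]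
  exact ⟨fun h => h.1, fun h' => ⟨h', h m⟩⟩

section
variable {E0 I : Type} [AddCommGroup E0] [Module (ZMod 2) E0] [Fintype I] [DecidableEq I] {k : ℕ}

/-- the combination -/
def dt (y : Fin k → I → ZMod 2) (a : Fin k → ZMod 2) (i : I) : ZMod 2 := ∑ j, a j * y j i

theorem ex_zero (P : Finset I) (i : I) : ex P (0 : Rs P → ZMod 2) i = 0 := by
  unfold ex
  split_ifs <;> rfl

theorem cm_zero (P : Finset I) (y : Fin k → I → ZMod 2) (a : Fin k → ZMod 2) :
    cm P y a 0 = dt y a := by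
  funext i
  unfold cm dt
  rw [ex_zero, add_zero]

theorem cm_zz (P : Finset I) (y : Fin k → I → ZMod 2) : cm P y (0 : Fin k → ZMod 2) 0 = 0 :=
  (cmL P y).map_zero

theorem cm_single (P : Finset I) (y : Fin k → I → ZMod 2) (i : Rs P) :
    cm P y (0 : Fin k → ZMod 2) (Pi.single i 1) = Pi.single (i : I) 1 := by
  funext l
  unfold cm
  have h2 : ∑ j, (0 : Fin k → ZMod 2) j * y j l = 0 := sum_eq_zero fun j _ => zero_mul _
  rw [h2, zero_add]
  by_cases hl : l ∈ P
  · rw [ex_out _ hl, Pi.single_eq_of_ne]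
    rintro rfl
    exact i.2 hl
  · have : ex P (Pi.single i 1 : Rs P → ZMod 2) l = (Pi.single i 1 : Rs P → ZMod 2) ⟨l, hl⟩ :=
      ex_in _ ⟨l, hl⟩
    rw [this, Pi.single_apply, Pi.single_apply]
    by_cases h : l = i
    · rw [if_pos h, if_pos (Subtype.ext h)]
    · rw [if_neg h, if_neg fun h' => h (congrArg Subtype.val h')]

theorem cm_dot (P : Finset I) (y : Fin k → I → ZMod 2) (b : Fin k → ZMod 2) (x : Rs P → ZMod 2)
    (f : I → ZMod 2) : ∑ l, f l * cm P y b x l =
      ∑ j, b j * ∑ l, f l * y j l + ∑ l : Rs P, f l * x l := by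
  unfold cm
  simp only [mul_add, sum_add_distrib]
  rw [sum_ex f x]
  congr 1
  simp only [mul_sum]
  rw [sum_comm]
  refine sum_congr rfl fun j _ => sum_congr rfl fun l _ => ?_
  ring

theorem Ph_fx (P : Finset I) (y : Fin k → I → ZMod 2) (i : Rs P) :
    Ph E0 P y (fx i) = fx (i : I) := by
  refine Prod.ext rfl (Prod.ext ?_ ?_)
  · exact cm_single P y i
  · exact cm_zz P y

theorem Ph_fy (P : Finset I) (y : Fin k → I → ZMod 2) (i : Rs P) :
    Ph E0 P y (fy i) = fy (i : I) := by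
  refine Prod.ext rfl (Prod.ext ?_ ?_)
  · exact cm_zz P y
  · exact cm_single P y i

/-- the new functions -/
def nPhi {C : Type} (y ev : Fin k → I → ZMod 2) (ν : I → ZMod 2) (m : I → I → ZMod 2)
    (Φ : I → E0 → C → ZMod 2) (i : I) (e : E1 E0 k) (c : C) : ZMod 2 :=
  ν i * dt y e.2.1 i + ∑ j, e.2.2 j * (∑ l, m i l * y j l + ev j i) + Φ i e.1 c

/-- the new functions -/
def nPsi {C : Type} (y ev : Fin k → I → ZMod 2) (u : I → ZMod 2) (m : I → I → ZMod 2)
    (Ψ : I → E0 → C → ZMod 2) (i : I) (e : E1 E0 k) (c : C) : ZMod 2 :=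
  u i * dt y e.2.2 i + ∑ j, e.2.1 j * (∑ l, m l i * y j l + ev j i) + Ψ i e.1 c

variable {C C' : Type} {B : EE E0 I →ₗ[ZMod 2] EE E0 I →ₗ[ZMod 2] ZMod 2} {ν u : I → ZMod 2}
  {m : I → I → ZMod 2} {F : EE E0 I → C} {G : (I → ZMod 2) → C'} {Φ Ψ : I → E0 → C → ZMod 2}
  {Θ : I → C' → ZMod 2}

theorem cm_at (P : Finset I) (y : Fin k → I → ZMod 2) (b : Fin k → ZMod 2) (x : Rs P → ZMod 2)
    (i : Rs P) : cm P y b x i = dt y b i + x i := by
  unfold cm dt
  rw [ex_in]

/-- **the structure of the new form** -/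
theorem sf_nB (hS : Sf B ν u m F G Φ Ψ Θ) {y ev : Fin k → I → ZMod 2} {s0 : Sy I}
    (h0 : Sol y ev s0) (P : Finset I) :
    Sf (nB B P y s0) (fun i : Rs P => ν i) (fun i : Rs P => u i) (fun i l : Rs P => m i l)
      (fun z => F (Ph E0 P y z)) (fun x => G (ex P x)) (fun i : Rs P => nPhi y ev ν m Φ i)
      (fun i : Rs P => nPsi y ev u m Ψ i) (fun i : Rs P => Θ i) := by
  constructor
  · intro z
    rw [nB_apply, hS.alt, sB_alt, sB_alt, add_zero, add_zero]
  · intro z i
    rw [nB_apply, Ph_fx, hS.hx, sB_fx, sB_fx]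
    have e1 : (Ph E0 P y z).2.1 i = dt y z.1.2.1 i + z.2.1 i := cm_at P y _ _ i
    have e2 : ∀ f : I → ZMod 2, ∑ l, f l * (Ph E0 P y z).2.2 l =
        ∑ j, z.1.2.2 j * ∑ l, f l * y j l + ∑ l : Rs P, f l * z.2.2 l := fun f => cm_dot P y _ _ f
    rw [e1, e2, e2]
    have e3 : ∑ j, z.1.2.2 j * ∑ l, s0.1 i l * y j l = ∑ j, z.1.2.2 j * ev j i :=
      sum_congr rfl fun j _ => by rw [h0 j i]
    have e4 : ∑ l : Rs P, (rs P s0).1 i l * z.2.2 l = ∑ l : Rs P, s0.1 i l * z.2.2 l := rfl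
    rw [e3, e4]
    unfold nPhi
    simp only [mul_add, sum_add_distrib]
    have e5 : (Ph E0 P y z).1 = z.1.1 := rfl
    rw [e5]
    have h : ∀ a b c d e f g : ZMod 2, a + b + (c + d) + e + (f + g) + g = b + d + (a + (c + f) + e) := by
      intro a b c d e f g
      linear_combination aa g
    exact h _ _ _ _ _ _ _
  · intro z i
    rw [nB_apply, Ph_fy, hS.hy, sB_fy s0.2, sB_fy (rs P s0).2]
    have e1 : (Ph E0 P y z).2.2 i = dt y z.1.2.2 i + z.2.2 i := cm_at P y _ _ i
    have e2 : ∀ f : I → ZMod 2, ∑ l, f l * (Ph E0 P y z).2.1 l =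
        ∑ j, z.1.2.1 j * ∑ l, f l * y j l + ∑ l : Rs P, f l * z.2.1 l := fun f => cm_dot P y _ _ f
    rw [e1, e2 (fun l => m l i), e2]
    have e3 : ∑ j, z.1.2.1 j * ∑ l, s0.1 i l * y j l = ∑ j, z.1.2.1 j * ev j i :=
      sum_congr rfl fun j _ => by rw [h0 j i]
    have e4 : ∑ l : Rs P, (rs P s0).1 i l * z.2.1 l = ∑ l : Rs P, s0.1 i l * z.2.1 l := rfl
    rw [e3, e4]
    unfold nPsi
    simp only [mul_add, sum_add_distrib]
    have e5 : (Ph E0 P y z).1 = z.1.1 := rfl
    rw [e5]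
    have h : ∀ a b c d e f g : ZMod 2, a + b + (c + d) + e + (f + g) + g = b + d + (a + (c + f) + e) := by
      intro a b c d e f g
      linear_combination aa g
    exact h _ _ _ _ _ _ _
  · intro x i
    have h := hS.hm (ex P x) i
    rw [sum_ex (fun l => m i l), sum_ex (fun l => m l i), ex_in] at h
    exact h

/-- the condition of genericity -/
def Gn (P : Finset I) (y ev : Fin k → I → ZMod 2) (ν u : I → ZMod 2) (m : I → I → ZMod 2)
    (F : EE E0 I → C) (Φ Ψ : I → E0 → C → ZMod 2) : Prop :=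
  ∀ e : E1 E0 k, (∀ i, i ∉ P → nPhi y ev ν m Φ i e (F (e.1, dt y e.2.1, dt y e.2.2)) = 0 ∧
    nPsi y ev u m Ψ i e (F (e.1, dt y e.2.1, dt y e.2.2)) = 0) → e = 0

end

/-- **the conditional estimate** -/
theorem cond (ε : ℝ) (hε : 0 < ε) : ∃ (T : ℕ) (δ : ℝ), 0 < δ ∧
    ∀ (E0 I C C' : Type) [AddCommGroup E0] [Module (ZMod 2) E0] [Fintype E0] [Fintype I]
      [DecidableEq I] [Fintype C] [Fintype C'] (k : ℕ) (y ev : Fin k → I → ZMod 2) (P : Finset I)
      (B : EE E0 I →ₗ[ZMod 2] EE E0 I →ₗ[ZMod 2] ZMod 2) (ν u : I → ZMod 2)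
      (m : I → I → ZMod 2) (F : EE E0 I → C) (G : (I → ZMod 2) → C') (Φ Ψ : I → E0 → C → ZMod 2)
      (Θ : I → C' → ZMod 2) (V : ℕ), Sf B ν u m F G Φ Ψ Θ → Even (finrank (ZMod 2) E0) →
      Piv P y → Gn P y ev ν u m F Φ Ψ →
      finrank (ZMod 2) E0 + 3 * k + T ≤ Fintype.card I →
      V + T + k ≤ (univ.filter fun k => ν k = 1).card →
      V + T + k ≤ (univ.filter fun k => u k = 1).card →
      V + T + k ≤ (univ.filter fun k => ν k ≠ u k).card →
      (Fintype.card E0 * 4 ^ k * Fintype.card C : ℝ) ^ 2 * Fintype.card C' / 2 ^ V ≤ δ →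
      |((univ.filter fun s : Sy I => Sol y ev s ∧ Nde B s).card : ℝ) -
        c2 * (univ.filter fun s : Sy I => Sol y ev s).card| ≤
        ε * (univ.filter fun s : Sy I => Sol y ev s).card := by
  obtain ⟨T, δ, hδ, hmain⟩ := gen3 ε hε
  refine ⟨T, δ, hδ, ?_⟩
  intro E0 I C C' _ _ _ _ _ _ _ k y ev P B ν u m F G Φ Ψ Θ V hS hE hP hG hc r1 r2 r3 hsz
  by_cases hne : ∃ s0 : Sy I, Sol y ev s0
  swap
  · have h1 : (univ.filter fun s : Sy I => Sol y ev s) = ∅ := by
      rw [filter_eq_empty_iff]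
      exact fun s _ h => hne ⟨s, h⟩
    have h2 : (univ.filter fun s : Sy I => Sol y ev s ∧ Nde B s) = ∅ := by
      rw [filter_eq_empty_iff]
      exact fun s _ h => hne ⟨s, h.1⟩
    rw [h1, h2]
    simp
  obtain ⟨s0, h0⟩ := hne
  have hS' := sf_nB hS h0 P
  have hcP : Fintype.card (Rs P) + k = Fintype.card I := by
    have h := Fintype.card_subtype_compl (fun i : I => i ∈ P)
    rw [Fintype.card_coe] at h
    have h2 : P.card ≤ Fintype.card I := card_le_univ P
    rw [hP.1] at h h2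
    have h3 : Fintype.card (Rs P) = Fintype.card I - k := h
    omega
  have hfr : finrank (ZMod 2) (E1 E0 k) = finrank (ZMod 2) E0 + 2 * k := by
    rw [Module.finrank_prod, Module.finrank_prod, Module.finrank_fin_fun]
    omega
  -- the few indices
  let ι : E1 E0 k →ₗ[ZMod 2] EE (E1 E0 k) (Rs P) := LinearMap.inl _ _ _
  let FF : Rs P → Submodule (ZMod 2) (E1 E0 k) := fun i =>
    LinearMap.ker (((nB B P y s0).flip (fx i)).comp ι) ⊓
      LinearMap.ker (((nB B P y s0).flip (fy i)).comp ι)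
  have hFF : ∀ (e : E1 E0 k) (i : Rs P), e ∈ FF i ↔
      nB B P y s0 (e, 0, 0) (fx i) = 0 ∧ nB B P y s0 (e, 0, 0) (fy i) = 0 := fun e i => Iff.rfl
  have hval : ∀ (e : E1 E0 k) (i : Rs P),
      nB B P y s0 (e, 0, 0) (fx i) = nPhi y ev ν m Φ i e (F (e.1, dt y e.2.1, dt y e.2.2)) ∧
      nB B P y s0 (e, 0, 0) (fy i) = nPsi y ev u m Ψ i e (F (e.1, dt y e.2.1, dt y e.2.2)) := by
    intro e i
    have hF : F (Ph E0 P y (e, 0, 0)) = F (e.1, dt y e.2.1, dt y e.2.2) := by
      rw [Ph_apply]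
      show F (e.1, cm P y e.2.1 0, cm P y e.2.2 0) = _
      rw [cm_zero, cm_zero]
    constructor
    · rw [hS'.hx]
      simp only [Pi.zero_apply, mul_zero, sum_const_zero, zero_add]
      rw [hF]
    · rw [hS'.hy]
      simp only [Pi.zero_apply, mul_zero, sum_const_zero, zero_add]
      rw [hF]
  obtain ⟨J₀, hJ1, hJ2⟩ := few FF (fun e he => hG e fun i hi => by
    obtain ⟨h1, h2⟩ := (hFF e ⟨i, hi⟩).1 (he ⟨i, hi⟩)
    obtain ⟨h3, h4⟩ := hval e ⟨i, hi⟩
    exact ⟨h3.symm.trans h1, h4.symm.trans h2⟩)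
  have rich : ∀ (Q : I → Prop) [DecidablePred Q], V + T + k ≤ (univ.filter Q).card →
      V + T ≤ (univ.filter fun i : Rs P => Q i).card := by
    intro Q _ hQ
    have h1 : univ.filter Q ⊆ P ∪ (univ.filter fun i : Rs P => Q i).image (Subtype.val : Rs P → I) := by
      intro i hi
      rw [mem_union, mem_image]
      by_cases h : i ∈ P
      · exact Or.inl h
      · exact Or.inr ⟨⟨i, h⟩, mem_filter.2 ⟨mem_univ _, (mem_filter.1 hi).2⟩, rfl⟩
    have h2 := (card_le_card h1).trans (card_union_le _ _)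
    have h3 : ((univ.filter fun i : Rs P => Q i).image (Subtype.val : Rs P → I)).card ≤
      (univ.filter fun i : Rs P => Q i).card := card_image_le
    rw [hP.1] at h2
    omega
  have hEv : Even (finrank (ZMod 2) (E1 E0 k)) := by
    rw [hfr]
    exact hE.add (even_two_mul k)
  have hcE : (Fintype.card (E1 E0 k) : ℝ) = Fintype.card E0 * 4 ^ k := by
    rw [Fintype.card_prod, Fintype.card_prod, Fintype.card_fun, ZMod.card, Fintype.card_fin]
    push_cast
    rw [← mul_pow]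
    norm_num
  have h := hmain (E1 E0 k) (Rs P) C C' J₀ (nB B P y s0) _ _ _ _ _ _ _ _ V hS' hEv
    (by omega) (rich _ r1) (rich _ r2) (rich _ r3)
    (fun e he => hJ2 e fun i hi => (hFF e i).2 (he i hi))
    (by rw [hcE]; exact hsz)
  -- the cardinalities
  have c1 : (univ.filter fun s : Sy I => Sol y ev s).card = Fintype.card (Sy (Rs P)) :=
    (card_eq' fun s _ => (and_iff_left trivial).symm).trans
      ((rp_card hP h0 (fun _ => True)).trans (card_tr fun _ => trivial))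
  have c3 : (univ.filter fun s : Sy I => Sol y ev s ∧ Nde B s).card =
      (univ.filter (Nde (nB B P y s0))).card := by
    rw [← rp_card hP h0 (Nde (nB B P y s0))]
    refine congrArg card (filter_congr fun s _ => ?_)
    exact and_congr_right fun hs => nde_iff hP h0 hs
  rw [c1, c3]
  have hN : (0 : ℝ) < Fintype.card (Sy (Rs P)) := by
    exact_mod_cast Fintype.card_pos
  rw [abs_sub_comm] at h ⊢
  have e : c2 * (Fintype.card (Sy (Rs P)) : ℝ) - ((univ.filter (Nde (nB B P y s0))).card : ℝ) =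
      (c2 - ((univ.filter (Nde (nB B P y s0))).card : ℝ) / Fintype.card (Sy (Rs P))) *
        Fintype.card (Sy (Rs P)) := by
    field_simp
  rw [e, abs_mul, abs_of_pos hN]
  exact mul_le_mul_of_nonneg_right h hN.le

end Pool.Agent.N877.JT
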