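import Pool.Agent.N916.MO.Gen2

/-!
# JT: the probability of the nondegenerate forms, general fixed part
-/

set_option autoImplicit false
set_option linter.all false

open scoped Classical

namespace Pool.Agent.N877.JT

open Finset Module
open Pool.Agent.N916.MO (EE fx fy sB Sy Nde Bd main str2)
open Pool.Agent.Y703.CQ (c2)

/-- the structure of the fixed part of the form -/
structure Sf {E0 I : Type} [AddCommGroup E0] [Module (ZMod 2) E0] [Fintype I] [DecidableEq I]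
    {C C' : Type} (B : EE E0 I →ₗ[ZMod 2] EE E0 I →ₗ[ZMod 2] ZMod 2) (ν u : I → ZMod 2)
    (m : I → I → ZMod 2) (F : EE E0 I → C) (G : (I → ZMod 2) → C') (Φ Ψ : I → E0 → C → ZMod 2)
    (Θ : I → C' → ZMod 2) : Prop where
  alt : ∀ z, B z z = 0
  hx : ∀ z k, B z (fx k) = ν k * z.2.1 k + ∑ l, m k l * z.2.2 l + Φ k z.1 (F z)
  hy : ∀ z k, B z (fy k) = u k * z.2.2 k + ∑ l, m l k * z.2.1 l + Ψ k z.1 (F z)
  hm : ∀ (x : I → ZMod 2) k, ∑ l, m k l * x l + ∑ l, m l k * x l = u k * x k + Θ k (G x)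

theorem gen3 (ε : ℝ) (hε : 0 < ε) : ∃ (T : ℕ) (δ : ℝ), 0 < δ ∧
    ∀ (E0 I C C' : Type) [AddCommGroup E0] [Module (ZMod 2) E0] [Fintype E0] [Fintype I]
      [DecidableEq I] [Fintype C] [Fintype C'] (J₀ : Finset I)
      (B : EE E0 I →ₗ[ZMod 2] EE E0 I →ₗ[ZMod 2] ZMod 2) (ν u : I → ZMod 2)
      (m : I → I → ZMod 2) (F : EE E0 I → C) (G : (I → ZMod 2) → C') (Φ Ψ : I → E0 → C → ZMod 2)
      (Θ : I → C' → ZMod 2) (V : ℕ), Sf B ν u m F G Φ Ψ Θ → Even (finrank (ZMod 2) E0) →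
      J₀.card + T ≤ Fintype.card I → V + T ≤ (univ.filter fun k => ν k = 1).card →
      V + T ≤ (univ.filter fun k => u k = 1).card →
      V + T ≤ (univ.filter fun k => ν k ≠ u k).card →
      (∀ e : E0, (∀ k ∈ J₀, B (e, 0, 0) (fx k) = 0 ∧ B (e, 0, 0) (fy k) = 0) → e = 0) →
      (Fintype.card E0 * Fintype.card C : ℝ) ^ 2 * Fintype.card C' / 2 ^ V ≤ δ →
      |((univ.filter (Nde B)).card : ℝ) / Fintype.card (Sy I) - c2| ≤ ε := by
  obtain ⟨T, δ, hδ, hmain⟩ := main ε hε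
  refine ⟨T, δ, hδ, ?_⟩
  intro E0 I C C' _ _ _ _ _ _ _ J₀ B ν u m F G Φ Ψ Θ V hS hE hc r1 r2 r3 hnd hsz
  obtain ⟨K, hK1, hK2⟩ : ∃ K : Finset I, K.card = T ∧ ∀ k ∈ K, k ∉ J₀ := by
    have h1 : T ≤ (J₀ᶜ).card := by
      rw [card_compl]
      omega
    obtain ⟨K, hK, hK'⟩ := exists_subset_card_eq h1
    exact ⟨K, hK', fun k hk => mem_compl.1 (hK hk)⟩
  refine hmain E0 I B K hS.alt hE hK1 fun A hA => ?_
  have rich : ∀ (P : I → Prop) [DecidablePred P], V + T ≤ (univ.filter P).card →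
      V ≤ (A.filter P).card := by
    intro P _ hP
    have h1 : univ.filter P ⊆ K ∪ A.filter P := by
      intro k hk
      rw [mem_union, mem_filter]
      by_cases h : k ∈ K
      · exact Or.inl h
      · exact Or.inr ⟨hA (mem_compl.2 h), (mem_filter.1 hk).2⟩
    have h2 := (card_le_card h1).trans (card_union_le _ _)
    omega
  refine str2 hS.hx hS.hy hS.hm (rich _ r1) (rich _ r2) (rich _ r3) ?_ hsz
  intro e he
  refine hnd e fun k hk => he k (hA ?_)
  rw [mem_compl]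
  exact fun h => hK2 _ h hk

end Pool.Agent.N877.JT
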