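import Pool.Agent.N877.JT.Nb

/-!
# JT: generic families
-/

set_option autoImplicit false
set_option linter.all false

open scoped Classical

namespace Pool.Agent.N877.JT

open Finset Module
open Pool.Agent.N916.GB (ps sx eta Pc In bad_card)
open Pool.Agent.N916.MO (EE fx fy Sy Nde Ix Sg Lm few)
open Pool.Agent.N916.PQ (Hy Gc Zs Kr yy ee ev mem_Zs Zs_coe_sum GG card_Zs)
open Pool.Agent.Y703.CQ (c2)

/-- few pivots inside a given set -/
theorem piv_few {I : Type} [Fintype I] [DecidableEq I] {k : ℕ} (y : Fin k → I → ZMod 2)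
    (S0 : Finset I) (h : ∀ a : Fin k → ZMod 2, (∀ p ∈ S0, ∑ j, a j * y j p = 0) → a = 0) :
    ∃ P : Finset I, P ⊆ S0 ∧ Piv P y := by
  let fl : I → (Fin k → ZMod 2) →ₗ[ZMod 2] ZMod 2 := fun p =>
    { toFun := fun a => ∑ j, a j * y j p
      map_add' := fun a b => by
        rw [← sum_add_distrib]
        exact sum_congr rfl fun j _ => by rw [Pi.add_apply, add_mul]
      map_smul' := fun c a => by
        show _ = c * _
        rw [mul_sum]
        exact sum_congr rfl fun j _ => by rw [Pi.smul_apply, smul_eq_mul, mul_assoc] }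
  obtain ⟨J₀, h1, h2⟩ := few (J := S0) (fun p => LinearMap.ker (fl p)) (fun a ha => h a fun p hp =>
    LinearMap.mem_ker.1 (ha ⟨p, hp⟩))
  rw [Module.finrank_fin_fun] at h1
  refine ⟨J₀.image Subtype.val, ?_, ?_, ?_⟩
  · intro p hp
    obtain ⟨q, _, rfl⟩ := mem_image.1 hp
    exact q.2
  · have h3 : (J₀.image (Subtype.val : S0 → I)).card = J₀.card :=
      card_image_of_injective _ Subtype.val_injective
    rw [h3]
    refine le_antisymm h1 ?_
    have h4 : Function.Injective (fun (a : Fin k → ZMod 2) (p : J₀) => fl (p : S0) a) := by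
      intro a b hab
      have h5 : a - b = 0 := h2 (a - b) fun p hp => by
        have h6 : fl p a = fl p b := congrFun hab ⟨p, hp⟩
        rw [LinearMap.mem_ker, map_sub, h6, sub_self]
      exact sub_eq_zero.1 h5
    have h7 := Fintype.card_le_of_injective _ h4
    rw [Fintype.card_fun, Fintype.card_fun, ZMod.card, Fintype.card_fin, Fintype.card_coe] at h7
    exact (Nat.pow_le_pow_iff_right (by norm_num)).1 h7
  · intro a ha
    refine h2 a fun p hp => LinearMap.mem_ker.2 ?_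
    exact ha p (mem_image_of_mem _ hp)

section
variable {R C J E0 CC CC' : Type} [Fintype R] [Fintype C] [Fintype J] [LinearOrder J]
  [AddCommGroup E0] [Module (ZMod 2) E0] [Fintype E0] [Fintype CC] [Fintype CC']
  {M : R ⊕ J → C ⊕ J → ZMod 2} {X : R ⊕ J → ZMod 2} {Y : C ⊕ J → ZMod 2} {u : J → ZMod 2}
  {k0 : J} {k : ℕ}

/-- the elements vanishing on `S0` -/
noncomputable def Bd0 (M : R ⊕ J → C ⊕ J → ZMod 2) (k0 : J) (S0 : Finset (Ix k0)) :
    Finset (Zs M k0) :=
  univ.filter fun z => ∀ p ∈ S0, (z : C ⊕ J → ZMod 2) (Sum.inr (p : J)) = 0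

/-- the elements with a degenerate first coordinate -/
noncomputable def Bd1 (M : R ⊕ J → C ⊕ J → ZMod 2) (k0 : J) (S0 : Finset (Ix k0)) (ν : J → ZMod 2)
    (Φ : Ix k0 → E0 → CC → ZMod 2) : Finset (Zs M k0) :=
  univ.filter fun z => ∃ d : (C → ZMod 2) × E0 × CC, ∀ i : Ix k0, i ∉ S0 →
    ν i * (z : C ⊕ J → ZMod 2) (Sum.inr (i : J)) =
      ∑ c, M (Sum.inr (i : J)) (Sum.inl c) * d.1 c + Φ i d.2.1 d.2.2

/-- the elements with a degenerate second coordinate -/
noncomputable def Bd2 (M : R ⊕ J → C ⊕ J → ZMod 2) (k0 : J) (S0 : Finset (Ix k0)) (υ : J → ZMod 2)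
    (Ψ : Ix k0 → E0 → CC → ZMod 2) : Finset (Zs M k0) :=
  univ.filter fun z => ∃ d : E0 × CC, ∀ i : Ix k0, i ∉ S0 →
    υ i * (z : C ⊕ J → ZMod 2) (Sum.inr (i : J)) = Ψ i d.1 d.2

theorem Zs_ext {z w : Zs M k0} (h1 : ∀ c, (z : C ⊕ J → ZMod 2) (Sum.inl c) =
    (w : C ⊕ J → ZMod 2) (Sum.inl c)) (h2 : ∀ i : Ix k0, (z : C ⊕ J → ZMod 2) (Sum.inr (i : J)) =
    (w : C ⊕ J → ZMod 2) (Sum.inr (i : J))) : z = w := by
  refine Subtype.ext (funext fun q => ?_)
  rcases q with c | l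
  · exact h1 c
  · by_cases hl : l = k0
    · subst hl
      rw [(mem_Zs.1 z.2).1, (mem_Zs.1 w.2).1]
    · exact h2 ⟨l, hl⟩

/-- counting by coordinates -/
theorem bd_count {D : Type} [Fintype D] (S : Finset (Zs M k0)) (f : Zs M k0 → D) (A : Finset (Ix k0))
    (h : ∀ z ∈ S, ∀ w ∈ S, f z = f w → ∀ i ∈ A, (z : C ⊕ J → ZMod 2) (Sum.inr (i : J)) =
      (w : C ⊕ J → ZMod 2) (Sum.inr (i : J))) :
    S.card * 2 ^ A.card ≤ Fintype.card D * 2 ^ Fintype.card C * 2 ^ Fintype.card (Ix k0) := by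
  have h1 : S.card ≤ (univ : Finset (D × (C → ZMod 2) × ({i : Ix k0 // i ∈ Aᶜ} → ZMod 2))).card := by
    refine card_le_card_of_injOn (fun z => (f z, (fun c => (z : C ⊕ J → ZMod 2) (Sum.inl c),
      fun i => (z : C ⊕ J → ZMod 2) (Sum.inr ((i : Ix k0) : J))))) (fun z _ => mem_coe.2 (mem_univ _)) ?_
    intro z hz w hw hzw
    simp only [Prod.mk.injEq] at hzw
    obtain ⟨e1, e2, e3⟩ := hzw
    refine Zs_ext (fun c => congrFun e2 c) fun i => ?_
    by_cases hi : i ∈ A
    · exact h z hz w hw e1 i hi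
    · exact congrFun e3 ⟨i, mem_compl.2 hi⟩
  rw [card_univ, Fintype.card_prod, Fintype.card_prod, Fintype.card_fun, Fintype.card_fun,
    ZMod.card, Fintype.card_coe, card_compl] at h1
  have h2 : A.card ≤ Fintype.card (Ix k0) := card_le_univ A
  have h3 : 2 ^ (Fintype.card (Ix k0) - A.card) * 2 ^ A.card = 2 ^ Fintype.card (Ix k0) := by
    rw [← pow_add, Nat.sub_add_cancel h2]
  calc S.card * 2 ^ A.card ≤ (Fintype.card D * (2 ^ Fintype.card C *
        2 ^ (Fintype.card (Ix k0) - A.card))) * 2 ^ A.card := Nat.mul_le_mul_right _ h1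
    _ = Fintype.card D * 2 ^ Fintype.card C * (2 ^ (Fintype.card (Ix k0) - A.card) * 2 ^ A.card) := by
        ring
    _ = _ := by rw [h3]

theorem Bd0_card (S0 : Finset (Ix k0)) :
    (Bd0 M k0 S0).card * 2 ^ S0.card ≤ 2 ^ Fintype.card C * 2 ^ Fintype.card (Ix k0) := by
  have h := bd_count (D := Unit) (Bd0 M k0 S0) (fun _ => ()) S0 (fun z hz w hw _ i hi => by
    unfold Bd0 at hz hw
    rw [mem_filter] at hz hw
    rw [hz.2 i hi, hw.2 i hi])
  rwa [Fintype.card_unit, one_mul] at h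

theorem mul_cancel_one {a b c : ZMod 2} (h1 : a = 1) (h : a * b = a * c) : b = c := by
  rwa [h1, one_mul, one_mul] at h

theorem Bd1_card (hne : Nonempty CC) (S0 : Finset (Ix k0)) (ν : J → ZMod 2)
    (Φ : Ix k0 → E0 → CC → ZMod 2) :
    (Bd1 M k0 S0 ν Φ).card * 2 ^ (univ.filter fun i : Ix k0 => i ∉ S0 ∧ ν i = 1).card ≤
      2 ^ Fintype.card C * (Fintype.card E0 * Fintype.card CC) * 2 ^ Fintype.card C *
        2 ^ Fintype.card (Ix k0) := by
  have h := bd_count (D := (C → ZMod 2) × E0 × CC) (Bd1 M k0 S0 ν Φ)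
    (fun z => if hz : ∃ d : (C → ZMod 2) × E0 × CC, ∀ i : Ix k0, i ∉ S0 →
      ν i * (z : C ⊕ J → ZMod 2) (Sum.inr (i : J)) =
        ∑ c, M (Sum.inr (i : J)) (Sum.inl c) * d.1 c + Φ i d.2.1 d.2.2 then hz.choose
      else (0, 0, Classical.choice hne))
    (univ.filter fun i : Ix k0 => i ∉ S0 ∧ ν i = 1) (fun z hz w hw hzw i hi => by
      unfold Bd1 at hz hw
      rw [mem_filter] at hz hw hi
      have hz' := hz.2
      have hw' := hw.2
      rw [dif_pos hz', dif_pos hw'] at hzw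
      have e1 := hz'.choose_spec i hi.2.1
      have e2 := hw'.choose_spec i hi.2.1
      rw [← hzw, ← e1] at e2
      exact mul_cancel_one hi.2.2 e2.symm)
  rw [Fintype.card_prod, Fintype.card_prod, Fintype.card_fun, ZMod.card] at h
  exact h

theorem Bd2_card (hne : Nonempty CC) (S0 : Finset (Ix k0)) (υ : J → ZMod 2)
    (Ψ : Ix k0 → E0 → CC → ZMod 2) :
    (Bd2 M k0 S0 υ Ψ).card * 2 ^ (univ.filter fun i : Ix k0 => i ∉ S0 ∧ υ i = 1).card ≤
      (Fintype.card E0 * Fintype.card CC) * 2 ^ Fintype.card C *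
        2 ^ Fintype.card (Ix k0) := by
  have h := bd_count (D := E0 × CC) (Bd2 M k0 S0 υ Ψ)
    (fun z => if hz : ∃ d : E0 × CC, ∀ i : Ix k0, i ∉ S0 →
      υ i * (z : C ⊕ J → ZMod 2) (Sum.inr (i : J)) = Ψ i d.1 d.2 then hz.choose
      else (0, Classical.choice hne))
    (univ.filter fun i : Ix k0 => i ∉ S0 ∧ υ i = 1) (fun z hz w hw hzw i hi => by
      unfold Bd2 at hz hw
      rw [mem_filter] at hz hw hi
      have hz' := hz.2
      have hw' := hw.2
      rw [dif_pos hz', dif_pos hw'] at hzw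
      have e1 := hz'.choose_spec i hi.2.1
      have e2 := hw'.choose_spec i hi.2.1
      rw [← hzw, ← e1] at e2
      exact mul_cancel_one hi.2.2 e2.symm)
  rw [Fintype.card_prod] at h
  exact h

/-- the equations and the matrix -/
theorem ee_row (z : Fin k → Zs M k0) (j : Fin k) (i : Ix k0) :
    ∑ l : Ix k0, M (Sum.inr (i : J)) (Sum.inr (l : J)) * yI z j l + eI z j i =
      ∑ c, M (Sum.inr (i : J)) (Sum.inl c) * (z j : C ⊕ J → ZMod 2) (Sum.inl c) := by
  have h1 : eI z j i = ∑ c, M (Sum.inr (i : J)) (Sum.inl c) * (z j : C ⊕ J → ZMod 2) (Sum.inl c) +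
      ∑ l : J, M (Sum.inr (i : J)) (Sum.inr l) * yy z j l := by
    unfold eI ee ev
    rw [Fintype.sum_sum_type]
    rfl
  have h2 : ∑ l : J, M (Sum.inr (i : J)) (Sum.inr l) * yy z j l =
      ∑ l : Ix k0, M (Sum.inr (i : J)) (Sum.inr (l : J)) * yI z j l := by
    rw [sum_k0 (k0 := k0)]
    · rfl
    · have h : yy z j k0 = 0 := (mem_Zs.1 (z j).2).1
      rw [h, mul_zero]
  rw [h1, h2]
  generalize (∑ l : Ix k0, M (Sum.inr (i : J)) (Sum.inr (l : J)) * yI z j l) = s
  generalize (∑ c, M (Sum.inr (i : J)) (Sum.inl c) * (z j : C ⊕ J → ZMod 2) (Sum.inl c)) = t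
  linear_combination aa s

theorem dt_yI (z : Fin k → Zs M k0) (a : Fin k → ZMod 2) (i : Ix k0) :
    dt (yI z) a i = ((∑ j, a j • z j : Zs M k0) : C ⊕ J → ZMod 2) (Sum.inr (i : J)) := by
  rw [Zs_coe_sum]
  rfl

theorem dt_zero' {I : Type} (y : Fin k → I → ZMod 2) : dt y (0 : Fin k → ZMod 2) = 0 := by
  funext i
  unfold dt
  exact sum_eq_zero fun j _ => zero_mul _

/-- **the families without bad combinations are generic** -/
theorem gen_fam {B : EE E0 (Ix k0) →ₗ[ZMod 2] EE E0 (Ix k0) →ₗ[ZMod 2] ZMod 2} {ν υ : J → ZMod 2}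
    {m : Ix k0 → Ix k0 → ZMod 2} {F : EE E0 (Ix k0) → CC} {G : (Ix k0 → ZMod 2) → CC'}
    {Φ Ψ : Ix k0 → E0 → CC → ZMod 2} {Θ : Ix k0 → CC' → ZMod 2} {J₀ : Finset J}
    (hS : Sf B (fun k : Ix k0 => ν k) (fun k : Ix k0 => υ k) m F G Φ Ψ Θ)
    (hnd : ∀ e : E0, (∀ k : Ix k0, (k : J) ∈ J₀ → B (e, 0, 0) (fx k) = 0 ∧ B (e, 0, 0) (fy k) = 0) →
      e = 0)
    (hm : ∀ k l : Ix k0, m k l = M (Sum.inr (k : J)) (Sum.inr (l : J)))
    {S0 : Finset (Ix k0)} (hS0 : ∀ p ∈ S0, (p : J) ∉ J₀) (z : Fin k → Zs M k0)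
    (hz : ∀ c : Fin k → ZMod 2, (∃ i, c i ≠ 0) →
      (∑ i, c i • z i : Zs M k0) ∉ Bd0 M k0 S0 ∪ (Bd1 M k0 S0 ν Φ ∪ Bd2 M k0 S0 υ Ψ)) :
    ∃ P : Finset (Ix k0), Piv P (yI z) ∧
      Gn P (yI z) (eI z) (fun k : Ix k0 => ν k) (fun k : Ix k0 => υ k) m F Φ Ψ := by
  have hne : ∀ a : Fin k → ZMod 2, a ≠ 0 → ∃ i, a i ≠ 0 := by
    intro a ha
    by_contra hc
    push Not at hc
    exact ha (funext hc)
  obtain ⟨P, hPS, hP⟩ := piv_few (yI z) S0 (fun a ha => by
    by_contra hc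
    refine hz a (hne a hc) (mem_union_left _ ?_)
    unfold Bd0
    rw [mem_filter]
    refine ⟨mem_univ _, fun p hp => ?_⟩
    rw [← dt_yI]
    exact ha p hp)
  refine ⟨P, hP, ?_⟩
  rintro ⟨e0, a, b⟩ he
  have hout : ∀ i : Ix k0, i ∉ S0 → i ∉ P := fun i hi h => hi (hPS h)
  -- the first coordinate
  have ha : a = 0 := by
    by_contra hc
    refine hz a (hne a hc) (mem_union_right _ (mem_union_left _ ?_))
    unfold Bd1
    rw [mem_filter]
    refine ⟨mem_univ _, (fun c => ((∑ j, b j • z j : Zs M k0) : C ⊕ J → ZMod 2) (Sum.inl c), e0,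
      F (e0, dt (yI z) a, dt (yI z) b)), fun i hi => ?_⟩
    have h1 := (he i (hout i hi)).1
    unfold nPhi at h1
    simp only at h1 ⊢
    have h2 : ∑ j, b j * (∑ l, m i l * yI z j l + eI z j i) =
        ∑ c, M (Sum.inr (i : J)) (Sum.inl c) *
          ((∑ j, b j • z j : Zs M k0) : C ⊕ J → ZMod 2) (Sum.inl c) := by
      have h3 : ∀ j, b j * (∑ l, m i l * yI z j l + eI z j i) =
          b j * ∑ c, M (Sum.inr (i : J)) (Sum.inl c) * (z j : C ⊕ J → ZMod 2) (Sum.inl c) := by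
        intro j
        rw [← ee_row z j i]
        simp only [hm]
      rw [sum_congr rfl fun j _ => h3 j]
      simp only [Zs_coe_sum, mul_sum]
      rw [sum_comm]
      refine sum_congr rfl fun c _ => sum_congr rfl fun j _ => ?_
      ring
    rw [h2, add_assoc, dt_yI] at h1
    exact e01 h1
  subst ha
  -- the second coordinate
  have hb : b = 0 := by
    by_contra hc
    refine hz b (hne b hc) (mem_union_right _ (mem_union_right _ ?_))
    unfold Bd2
    rw [mem_filter]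
    refine ⟨mem_univ _, (e0, F (e0, dt (yI z) 0, dt (yI z) b)), fun i hi => ?_⟩
    have h1 := (he i (hout i hi)).2
    unfold nPsi at h1
    simp only at h1 ⊢
    have h2 : ∑ j, (0 : Fin k → ZMod 2) j * (∑ l, m l i * yI z j l + eI z j i) = 0 :=
      sum_eq_zero fun j _ => zero_mul _
    rw [h2, add_zero, dt_yI] at h1
    exact e01 h1
  subst hb
  -- the fixed part
  have he0 : e0 = 0 := by
    refine hnd e0 fun i hi => ?_
    have hiP : i ∉ P := fun h => hS0 i (hPS h) hi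
    obtain ⟨h1, h2⟩ := he i hiP
    unfold nPhi at h1
    unfold nPsi at h2
    simp only [dt_zero', Pi.zero_apply, zero_mul, mul_zero, sum_const_zero, zero_add] at h1 h2
    constructor
    · rw [hS.hx]
      simp only [Pi.zero_apply, mul_zero, sum_const_zero, zero_add]
      exact h1
    · rw [hS.hy]
      simp only [Pi.zero_apply, mul_zero, sum_const_zero, zero_add]
      exact h2
  subst he0
  rfl

/-- the size of the space of the solutions of the first rows -/
theorem card_Zs' (H : Hy M X Y u) (hRC : Fintype.card C = Fintype.card R) :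
    (Fintype.card (Zs M k0) : ℝ) = 2 ^ Fintype.card (Ix k0) := by
  have h1 := card_Zs H k0
  have h2 : Fintype.card J = Fintype.card (Ix k0) + 1 := by
    have h := Fintype.card_subtype_compl (fun i : J => i = k0)
    have h3 : Fintype.card (Ix k0) = Fintype.card J - Fintype.card {i : J // i = k0} := h
    rw [Fintype.card_subtype_eq] at h3
    have h4 : 0 < Fintype.card J := Fintype.card_pos_iff.2 ⟨k0⟩
    omega
  rw [hRC, h2] at h1
  have h3 : (0 : ℝ) < 2 ^ (Fintype.card R + 1) := by positivity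
  refine mul_right_cancel₀ h3.ne' ?_
  rw [h1, ← pow_add]
  congr 1
  omega

end

end Pool.Agent.N877.JT
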