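import Pool.Agent.N877.JT.Gf
import Pool.Agent.Y948.CQ.C2

/-!
# JT: the moments of the number of the solutions, weighted by the nondegeneracy of the form
-/

set_option autoImplicit false
set_option linter.all false

open scoped Classical

namespace Pool.Agent.N877.JT

open Finset Module
open Pool.Agent.N916.GB (ps sx eta Pc In bad_card)
open Pool.Agent.N916.MO (EE fx fy Sy Nde Ix Sg Lm few)
open Pool.Agent.N916.PQ (Hy Gc Zs Kr yy ee ev mem_Zs Zs_coe_sum GG card_Zs T_bound)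
open Pool.Agent.Y703.CQ (c2)

theorem c201 : 0 ≤ c2 ∧ c2 ≤ 1 := by
  obtain ⟨-, h1, h2, -, -⟩ := Pool.Agent.Y948.CQ.t_C2
  exact ⟨h1.le, h2.le⟩

theorem cnt_aux {b D I a c w : ℕ} (h : b * 2 ^ a ≤ D * 2 ^ I) (hD : D ≤ 2 ^ c) (ha : c + w ≤ a) :
    b * 2 ^ w ≤ 2 ^ I := by
  have h1 : 2 ^ (c + w) ≤ 2 ^ a := Nat.pow_le_pow_right (by norm_num) ha
  have h2 : b * 2 ^ w * 2 ^ c ≤ 2 ^ I * 2 ^ c := by
    calc b * 2 ^ w * 2 ^ c = b * 2 ^ (c + w) := by rw [pow_add]; ring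
      _ ≤ b * 2 ^ a := Nat.mul_le_mul_left _ h1
      _ ≤ D * 2 ^ I := h
      _ ≤ 2 ^ c * 2 ^ I := Nat.mul_le_mul_right _ hD
      _ = 2 ^ I * 2 ^ c := mul_comm _ _
  exact Nat.le_of_mul_le_mul_right h2 (by positivity)

theorem rich1 {J : Type} [Fintype J] [LinearOrder J] {k0 : J} (Q : J → Prop) [DecidablePred Q] :
    (univ.filter Q).card ≤ (univ.filter fun i : Ix k0 => Q i).card + 1 := by
  have h1 : univ.filter Q ⊆ insert k0 ((univ.filter fun i : Ix k0 => Q i).image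
      (Subtype.val : Ix k0 → J)) := by
    intro i hi
    rw [mem_insert, mem_image]
    by_cases h : i = k0
    · exact Or.inl h
    · exact Or.inr ⟨⟨i, h⟩, mem_filter.2 ⟨mem_univ _, (mem_filter.1 hi).2⟩, rfl⟩
  refine (card_le_card h1).trans ((card_insert_le _ _).trans ?_)
  have := card_image_le (s := univ.filter fun i : Ix k0 => Q i) (f := (Subtype.val : Ix k0 → J))
  omega

section
variable {R C J E0 CC CC' : Type} [Fintype R] [Fintype C] [Fintype J] [LinearOrder J]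
  [AddCommGroup E0] [Module (ZMod 2) E0] [Fintype E0] [Fintype CC] [Fintype CC']

/-- the hypotheses -/
structure JH (M : R ⊕ J → C ⊕ J → ZMod 2) (X : R ⊕ J → ZMod 2) (Y : C ⊕ J → ZMod 2)
    (u : J → ZMod 2) (k0 : J) (J₀ : Finset J) (n0 : ℕ)
    (B : EE E0 (Ix k0) →ₗ[ZMod 2] EE E0 (Ix k0) →ₗ[ZMod 2] ZMod 2) (ν υ : J → ZMod 2)
    (m : Ix k0 → Ix k0 → ZMod 2) (F : EE E0 (Ix k0) → CC) (G : (Ix k0 → ZMod 2) → CC')
    (Φ Ψ : Ix k0 → E0 → CC → ZMod 2) (Θ : Ix k0 → CC' → ZMod 2) (V : ℕ) : Prop where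
  hy : Hy M X Y u
  cr : Fintype.card C = Fintype.card R
  rn : Fintype.card R ≤ n0
  ce : Fintype.card E0 ≤ 4 ^ n0
  ev : Even (finrank (ZMod 2) E0)
  cc : Fintype.card CC ≤ 32
  cd : Fintype.card CC' ≤ 4
  jc : J₀.card ≤ 2 * n0
  sf : Sf B (fun k : Ix k0 => ν k) (fun k : Ix k0 => υ k) m F G Φ Ψ Θ
  nd : ∀ e : E0, (∀ k : Ix k0, (k : J) ∈ J₀ → B (e, 0, 0) (fx k) = 0 ∧ B (e, 0, 0) (fy k) = 0) →
      e = 0
  hm : ∀ k l : Ix k0, m k l = M (Sum.inr (k : J)) (Sum.inr (l : J))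
  ru : V ≤ (univ.filter fun k : J => u k = 1).card
  rν : V ≤ (univ.filter fun k : J => ν k = 1).card
  rυ : V ≤ (univ.filter fun k : J => υ k = 1).card
  rd : V ≤ (univ.filter fun k : J => ν k ≠ υ k).card

variable {M : R ⊕ J → C ⊕ J → ZMod 2} {X : R ⊕ J → ZMod 2} {Y : C ⊕ J → ZMod 2} {u : J → ZMod 2}
  {k0 : J} {J₀ : Finset J} {n0 : ℕ}
  {B : EE E0 (Ix k0) →ₗ[ZMod 2] EE E0 (Ix k0) →ₗ[ZMod 2] ZMod 2} {ν υ : J → ZMod 2}
  {m : Ix k0 → Ix k0 → ZMod 2} {F : EE E0 (Ix k0) → CC} {G : (Ix k0 → ZMod 2) → CC'}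
  {Φ Ψ : Ix k0 → E0 → CC → ZMod 2} {Θ : Ix k0 → CC' → ZMod 2} {V k : ℕ}

/-- the bad elements -/
noncomputable def Bds (M : R ⊕ J → C ⊕ J → ZMod 2) (k0 : J) (S0 : Finset (Ix k0))
    (ν υ : J → ZMod 2) (Φ Ψ : Ix k0 → E0 → CC → ZMod 2) : Finset (Zs M k0) :=
  Bd0 M k0 S0 ∪ (Bd1 M k0 S0 ν Φ ∪ Bd2 M k0 S0 υ Ψ)

theorem bds_card (H : JH M X Y u k0 J₀ n0 B ν υ m F G Φ Ψ Θ V) {S0 : Finset (Ix k0)} {w : ℕ}
    (hS : S0.card = n0 + w) (hV : 6 * n0 + 2 * w + 6 ≤ V) :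
    (Bds M k0 S0 ν υ Φ Ψ).card * 2 ^ w ≤ 3 * 2 ^ Fintype.card (Ix k0) := by
  have hC : Fintype.card C ≤ n0 := H.cr.le.trans H.rn
  have h2C : 2 ^ Fintype.card C ≤ 2 ^ n0 := Nat.pow_le_pow_right (by norm_num) hC
  have hE : Fintype.card E0 * Fintype.card CC ≤ 2 ^ (2 * n0 + 5) := by
    calc Fintype.card E0 * Fintype.card CC ≤ 4 ^ n0 * 32 := Nat.mul_le_mul H.ce H.cc
      _ = 2 ^ (2 * n0 + 5) := by rw [pow_add, pow_mul]; norm_num
  have hne : Nonempty CC := ⟨F 0⟩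
  have out : ∀ (Q : Ix k0 → Prop) [DecidablePred Q], (univ.filter Q).card ≤
      (univ.filter fun i : Ix k0 => i ∉ S0 ∧ Q i).card + S0.card := by
    intro Q _
    have h1 : univ.filter Q ⊆ (univ.filter fun i : Ix k0 => i ∉ S0 ∧ Q i) ∪ S0 := by
      intro i hi
      rw [mem_union, mem_filter]
      by_cases h : i ∈ S0
      · exact Or.inr h
      · exact Or.inl ⟨mem_univ _, h, (mem_filter.1 hi).2⟩
    exact (card_le_card h1).trans (card_union_le _ _)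
  have r1 := (H.rν.trans (rich1 (k0 := k0) fun k => ν k = 1))
  have r2 := (H.rυ.trans (rich1 (k0 := k0) fun k => υ k = 1))
  have o1 := out fun i : Ix k0 => ν i = 1
  have o2 := out fun i : Ix k0 => υ i = 1
  have h0 : (Bd0 M k0 S0).card * 2 ^ w ≤ 2 ^ Fintype.card (Ix k0) :=
    cnt_aux (Bd0_card S0) h2C (by omega)
  have h1 : (Bd1 M k0 S0 ν Φ).card * 2 ^ w ≤ 2 ^ Fintype.card (Ix k0) := by
    refine cnt_aux (c := 4 * n0 + 5) (Bd1_card hne S0 ν Φ) ?_ (by omega)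
    calc 2 ^ Fintype.card C * (Fintype.card E0 * Fintype.card CC) * 2 ^ Fintype.card C ≤
          2 ^ n0 * 2 ^ (2 * n0 + 5) * 2 ^ n0 := Nat.mul_le_mul (Nat.mul_le_mul h2C hE) h2C
      _ = 2 ^ (4 * n0 + 5) := by rw [← pow_add, ← pow_add]; congr 1; omega
  have h2 : (Bd2 M k0 S0 υ Ψ).card * 2 ^ w ≤ 2 ^ Fintype.card (Ix k0) := by
    refine cnt_aux (c := 4 * n0 + 5) (Bd2_card hne S0 υ Ψ) ?_ (by omega)
    calc Fintype.card E0 * Fintype.card CC * 2 ^ Fintype.card C ≤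
          2 ^ (2 * n0 + 5) * 2 ^ n0 := Nat.mul_le_mul hE h2C
      _ = 2 ^ (3 * n0 + 5) := by rw [← pow_add]; congr 1; omega
      _ ≤ 2 ^ (4 * n0 + 5) := Nat.pow_le_pow_right (by norm_num) (by omega)
  have h3 : (Bds M k0 S0 ν υ Φ Ψ).card ≤ (Bd0 M k0 S0).card + ((Bd1 M k0 S0 ν Φ).card +
      (Bd2 M k0 S0 υ Ψ).card) := by
    unfold Bds
    refine (card_union_le _ _).trans ?_
    have := card_union_le (Bd1 M k0 S0 ν Φ) (Bd2 M k0 S0 υ Ψ)
    omega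
  calc (Bds M k0 S0 ν υ Φ Ψ).card * 2 ^ w ≤ ((Bd0 M k0 S0).card + ((Bd1 M k0 S0 ν Φ).card +
        (Bd2 M k0 S0 υ Ψ).card)) * 2 ^ w := Nat.mul_le_mul_right _ h3
    _ = (Bd0 M k0 S0).card * 2 ^ w + ((Bd1 M k0 S0 ν Φ).card * 2 ^ w +
        (Bd2 M k0 S0 υ Ψ).card * 2 ^ w) := by ring
    _ ≤ 3 * 2 ^ Fintype.card (Ix k0) := by omega

/-- the generic indices for the pivots -/
theorem S0_ex (H : JH M X Y u k0 J₀ n0 B ν υ m F G Φ Ψ Θ V) {w : ℕ} (hV : 6 * n0 + 2 * w + 6 ≤ V) :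
    ∃ S0 : Finset (Ix k0), S0.card = n0 + w ∧ ∀ p ∈ S0, (p : J) ∉ J₀ := by
  have r1 := (H.rν.trans (rich1 (k0 := k0) fun k => ν k = 1))
  have h1 : (univ.filter fun i : Ix k0 => ν i = 1).card ≤ Fintype.card (Ix k0) := card_le_univ _
  have h2 : Fintype.card (Ix k0) ≤ (univ.filter fun i : Ix k0 => (i : J) ∉ J₀).card + J₀.card := by
    have h3 : (univ : Finset (Ix k0)) ⊆ (univ.filter fun i : Ix k0 => (i : J) ∉ J₀) ∪
        (univ.filter fun i : Ix k0 => (i : J) ∈ J₀) := by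
      intro i _
      rw [mem_union, mem_filter, mem_filter]
      by_cases h : (i : J) ∈ J₀
      · exact Or.inr ⟨mem_univ _, h⟩
      · exact Or.inl ⟨mem_univ _, h⟩
    have h4 : (univ.filter fun i : Ix k0 => (i : J) ∈ J₀).card ≤ J₀.card := by
      refine card_le_card_of_injOn Subtype.val (fun i hi => ?_) Subtype.val_injective.injOn
      rw [mem_coe, mem_filter] at hi
      exact hi.2
    have h5 := (card_le_card h3).trans (card_union_le _ _)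
    rw [card_univ] at h5
    omega
  have h6 := H.jc
  obtain ⟨S0, hS, hc⟩ := exists_subset_card_eq (s := univ.filter fun i : Ix k0 => (i : J) ∉ J₀)
    (n := n0 + w) (by omega)
  exact ⟨S0, hc, fun p hp => (mem_filter.1 (hS hp)).2⟩

end

/-- **the weighted moments** -/
theorem mom_k (k : ℕ) (ε : ℝ) (hε : 0 < ε) : ∃ V₀ : ℕ, ∀ (R C J E0 CC CC' : Type) [Fintype R]
    [Fintype C] [Fintype J] [LinearOrder J] [AddCommGroup E0] [Module (ZMod 2) E0] [Fintype E0]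
    [Fintype CC] [Fintype CC'] (M : R ⊕ J → C ⊕ J → ZMod 2) (X : R ⊕ J → ZMod 2)
    (Y : C ⊕ J → ZMod 2) (u : J → ZMod 2) (k0 : J) (J₀ : Finset J) (n0 : ℕ)
    (B : EE E0 (Ix k0) →ₗ[ZMod 2] EE E0 (Ix k0) →ₗ[ZMod 2] ZMod 2) (ν υ : J → ZMod 2)
    (m : Ix k0 → Ix k0 → ZMod 2) (F : EE E0 (Ix k0) → CC) (G : (Ix k0 → ZMod 2) → CC')
    (Φ Ψ : Ix k0 → E0 → CC → ZMod 2) (Θ : Ix k0 → CC' → ZMod 2) (V : ℕ),
    JH M X Y u k0 J₀ n0 B ν υ m F G Φ Ψ Θ V → 6 * n0 + V₀ ≤ V →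
    |(∑ σ : ps J → ZMod 2, if Nde B (Sg k0 σ) then In k (finrank (ZMod 2) (Kr M k0 (sx σ))) else 0) /
      2 ^ (ps J).card - c2| ≤ ε := by
  obtain ⟨T0, δ, hδ, hcond⟩ := cond (ε / 8) (by linarith)
  obtain ⟨v, hv⟩ := pow_unbounded_of_one_lt (1 / δ) (by norm_num : (1 : ℝ) < 2)
  obtain ⟨w, hw⟩ := pow_unbounded_of_one_lt (3 * 2 ^ k * 2 ^ (k * k) / (ε / 4))
    (by norm_num : (1 : ℝ) < 2)
  obtain ⟨V1, hV1⟩ := pow_unbounded_of_one_lt (2 ^ (k ^ 2 + k + 4) / (min 1 (ε / 4)))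
    (by norm_num : (1 : ℝ) < 2)
  refine ⟨8 * k + 30 + v + T0 + 2 * w + V1, ?_⟩
  intro R C J E0 CC CC' _ _ _ _ _ _ _ _ _ M X Y u k0 J₀ n0 B ν υ m F G Φ Ψ Θ V H hV
  have hmin : (0 : ℝ) < min 1 (ε / 4) := lt_min one_pos (by linarith)
  have hN : (0 : ℝ) < 2 ^ (ps J).card := by positivity
  -- the unweighted moments
  set T : ℝ := (∑ σ : ps J → ZMod 2, In k (finrank (ZMod 2) (Kr M k0 (sx σ)))) /
    2 ^ (ps J).card with hT
  have hT1 : |T - 1| ≤ min 1 (ε / 4) := by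
    have h1 := H.ru
    have h2 := H.rn
    have h3 := H.cr
    have h := T_bound H.hy k0 k V1 0 (by omega) (by omega)
    rw [pow_zero, one_pow, one_mul] at h
    have h5 : |T - 1| * 2 ^ V1 ≤ min 1 (ε / 4) * 2 ^ V1 := by
      refine h.trans ?_
      rw [div_lt_iff₀ hmin] at hV1
      linarith
    exact le_of_mul_le_mul_right h5 (by positivity)
  -- the bad elements
  obtain ⟨S0, hS0, hS1⟩ := S0_ex H (w := w) (by omega)
  set S := Bds M k0 S0 ν υ Φ Ψ with hSd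
  have hScard := bds_card H hS0 (by omega)
  rw [← hSd] at hScard
  set NG : Finset (Fin k → Zs M k0) := univ.filter fun z : Fin k → Zs M k0 =>
    ∃ c : Fin k → ZMod 2, (∃ i, c i ≠ 0) ∧ ∑ i, c i • z i ∈ S with hNG
  have hZ : (Fintype.card (Zs M k0) : ℝ) = 2 ^ Fintype.card (Ix k0) := card_Zs' H.hy H.cr
  have hbad : (NG.card : ℝ) * 2 ^ w ≤ 3 * 2 ^ k * 2 ^ (k * Fintype.card (Ix k0)) := by
    have h1 : (NG.card : ℝ) * (Fintype.card (Zs M k0) : ℝ) ≤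
        2 ^ k * ((Fintype.card (Zs M k0) : ℝ) ^ k * S.card) := by
      convert bad_card k S
    rw [hZ] at h1
    have h2 : (S.card : ℝ) * 2 ^ w ≤ 3 * 2 ^ Fintype.card (Ix k0) := by exact_mod_cast hScard
    have hZ0 : (0 : ℝ) < 2 ^ Fintype.card (Ix k0) := by positivity
    refine le_of_mul_le_mul_right (a := (2 : ℝ) ^ Fintype.card (Ix k0)) ?_ hZ0
    calc (NG.card : ℝ) * 2 ^ w * 2 ^ Fintype.card (Ix k0) =
          ((NG.card : ℝ) * 2 ^ Fintype.card (Ix k0)) * 2 ^ w := by ring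
      _ ≤ (2 ^ k * ((2 ^ Fintype.card (Ix k0)) ^ k * S.card)) * 2 ^ w :=
          mul_le_mul_of_nonneg_right h1 (by positivity)
      _ = 2 ^ k * (2 ^ Fintype.card (Ix k0)) ^ k * (S.card * 2 ^ w) := by ring
      _ ≤ 2 ^ k * (2 ^ Fintype.card (Ix k0)) ^ k * (3 * 2 ^ Fintype.card (Ix k0)) :=
          mul_le_mul_of_nonneg_left h2 (by positivity)
      _ = 3 * 2 ^ k * 2 ^ (k * Fintype.card (Ix k0)) * 2 ^ Fintype.card (Ix k0) := by
          rw [← pow_mul, mul_comm (Fintype.card (Ix k0)) k]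
          ring
  -- the counts
  set cs : (Fin k → Zs M k0) → ℝ := fun z =>
    ((univ.filter fun s : Sy (Ix k0) => Sol (yI z) (eI z) s).card : ℝ) with hcs
  set ns : (Fin k → Zs M k0) → ℝ := fun z =>
    ((univ.filter fun s : Sy (Ix k0) => Sol (yI z) (eI z) s ∧ Nde B s).card : ℝ) with hns
  have e1 : (∑ σ : ps J → ZMod 2, In k (finrank (ZMod 2) (Kr M k0 (sx σ)))) =
      ∑ z ∈ GG M k0 k, cs z := by
    have h := In_sum (k0 := k0) (k := k) H.hy (fun _ => True)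
    simp only [if_true, and_true] at h
    rw [h]
    refine sum_congr rfl fun z _ => ?_
    rw [hcs]
    simp only
    congr 1
    rw [← card_Sg' (k0 := k0) fun s => Sol (yI z) (eI z) s]
    exact congrArg card (filter_congr fun σ _ => Pc_Sol H.hy z σ)
  have e2 : (∑ σ : ps J → ZMod 2, if Nde B (Sg k0 σ) then
      In k (finrank (ZMod 2) (Kr M k0 (sx σ))) else 0) = ∑ z ∈ GG M k0 k, ns z := by
    rw [In_sum (k0 := k0) (k := k) H.hy (fun σ => Nde B (Sg k0 σ))]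
    refine sum_congr rfl fun z _ => ?_
    rw [hns]
    simp only
    congr 1
    exact ((card_eq' fun σ _ => and_congr_left fun _ => Pc_Sol H.hy z σ).trans
      (card_Sg' fun s => Sol (yI z) (eI z) s ∧ Nde B s)).trans (card_eq' fun _ _ => Iff.rfl)
  have hcs0 : ∀ z, 0 ≤ cs z := fun z => Nat.cast_nonneg _
  have hns0 : ∀ z, 0 ≤ ns z := fun z => Nat.cast_nonneg _
  have hnc : ∀ z, ns z ≤ cs z := by
    intro z
    rw [hns, hcs]
    simp only
    refine Nat.cast_le.2 (card_le_card fun s hs => ?_)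
    rw [mem_filter] at hs ⊢
    exact ⟨mem_univ _, hs.2.1⟩
  have hSy : (Fintype.card (Sy (Ix k0)) : ℝ) = 2 ^ (ps J).card := card_SyI
  -- the estimate of the size of the parameters
  have hsz : (Fintype.card E0 * 4 ^ k * Fintype.card CC : ℝ) ^ 2 * Fintype.card CC' /
      2 ^ (4 * n0 + 4 * k + 12 + v) ≤ δ := by
    have hE : (Fintype.card E0 : ℝ) ≤ 4 ^ n0 := by exact_mod_cast H.ce
    have hC : (Fintype.card CC : ℝ) ≤ 32 := by exact_mod_cast H.cc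
    have hD : (Fintype.card CC' : ℝ) ≤ 4 := by exact_mod_cast H.cd
    rw [div_le_iff₀ (by positivity)]
    have h1 : (Fintype.card E0 * 4 ^ k * Fintype.card CC : ℝ) ^ 2 * Fintype.card CC' ≤
        (4 ^ n0 * 4 ^ k * 32) ^ 2 * 4 := by gcongr
    have h2 : ((4 : ℝ) ^ n0 * 4 ^ k * 32) ^ 2 * 4 = 2 ^ (4 * n0 + 4 * k + 12) := by
      have h3 : (4 : ℝ) ^ n0 = 2 ^ (2 * n0) := by rw [pow_mul]; norm_num
      have h4 : (4 : ℝ) ^ k = 2 ^ (2 * k) := by rw [pow_mul]; norm_num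
      have h5 : (32 : ℝ) = 2 ^ 5 := by norm_num
      rw [h3, h4, h5]
      have h6 : (4 : ℝ) = 2 ^ 2 := by norm_num
      rw [h6]
      ring
    rw [h2] at h1
    refine h1.trans ?_
    rw [div_lt_iff₀ hδ] at hv
    have hp : (0 : ℝ) < 2 ^ (4 * n0 + 4 * k + 12) := by positivity
    calc (2 : ℝ) ^ (4 * n0 + 4 * k + 12) = 2 ^ (4 * n0 + 4 * k + 12) * 1 := (mul_one _).symm
      _ ≤ 2 ^ (4 * n0 + 4 * k + 12) * (2 ^ v * δ) := mul_le_mul_of_nonneg_left hv.le hp.le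
      _ = δ * 2 ^ (4 * n0 + 4 * k + 12 + v) := by rw [pow_add _ (4 * n0 + 4 * k + 12) v]; ring
  have r1 := (H.rν.trans (rich1 (k0 := k0) fun k => ν k = 1))
  have r2 := (H.rυ.trans (rich1 (k0 := k0) fun k => υ k = 1))
  have r3 := (H.rd.trans (rich1 (k0 := k0) fun k => ν k ≠ υ k))
  have hfr : finrank (ZMod 2) E0 ≤ 2 * n0 := by
    have h1 : Fintype.card E0 = 2 ^ finrank (ZMod 2) E0 := by
      have := Module.card_eq_pow_finrank (K := ZMod 2) (V := E0)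
      rwa [ZMod.card] at this
    have h2 := H.ce
    rw [h1, show (4 : ℕ) = 2 ^ 2 by norm_num, ← pow_mul] at h2
    exact (Nat.pow_le_pow_iff_right (by norm_num)).1 h2
  have hcI : (univ.filter fun i : Ix k0 => ν i = 1).card ≤ Fintype.card (Ix k0) := card_le_univ _
  -- the difference for one family
  have hone : ∀ z ∈ GG M k0 k, |ns z - c2 * cs z| ≤ ε / 8 * cs z +
      (if z ∈ NG then 2 ^ (k * k) * (2 : ℝ) ^ (ps J).card / 2 ^ (k * Fintype.card (Ix k0)) else 0) := by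
    intro z hz
    by_cases hg : z ∈ NG
    · rw [if_pos hg]
      have h1 : |ns z - c2 * cs z| ≤ cs z := by
        have h2 := mul_nonneg c201.1 (hcs0 z)
        have h3 := mul_le_mul_of_nonneg_right c201.2 (hcs0 z)
        have h4 := hnc z
        have h5 := hns0 z
        rw [abs_le]
        constructor <;> linarith
      have h2 : cs z ≤ 2 ^ (k * k) * (2 : ℝ) ^ (ps J).card / 2 ^ (k * Fintype.card (Ix k0)) := by
        rw [le_div_iff₀ (by positivity), ← hSy]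
        exact sol_bound hz
      have h3 := mul_nonneg (by linarith : (0 : ℝ) ≤ ε / 8) (hcs0 z)
      linarith
    · rw [if_neg hg, add_zero]
      obtain ⟨P, hP, hG⟩ := gen_fam H.sf H.nd H.hm hS1 z (fun c hc hin => hg (by
        rw [hNG, mem_filter]
        exact ⟨mem_univ _, c, hc, hin⟩))
      exact hcond E0 (Ix k0) CC CC' k (yI z) (eI z) P B _ _ m F G Φ Ψ Θ
        (4 * n0 + 4 * k + 12 + v) H.sf H.ev hP hG (by omega) (by omega) (by omega) (by omega) hsz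
  -- the difference of the moments
  have hdiff : |(∑ z ∈ GG M k0 k, ns z) - c2 * ∑ z ∈ GG M k0 k, cs z| ≤
      ε / 8 * ∑ z ∈ GG M k0 k, cs z + ε / 4 * 2 ^ (ps J).card := by
    have h1 : (∑ z ∈ GG M k0 k, ns z) - c2 * ∑ z ∈ GG M k0 k, cs z =
        ∑ z ∈ GG M k0 k, (ns z - c2 * cs z) := by
      rw [mul_sum, ← sum_sub_distrib]
    rw [h1]
    refine (abs_sum_le_sum_abs _ _).trans ((sum_le_sum hone).trans ?_)
    rw [sum_add_distrib, ← mul_sum]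
    refine add_le_add (le_refl _) ?_
    have h2 : (∑ z ∈ GG M k0 k, if z ∈ NG then 2 ^ (k * k) * (2 : ℝ) ^ (ps J).card /
        2 ^ (k * Fintype.card (Ix k0)) else 0) ≤ ∑ z, if z ∈ NG then
        2 ^ (k * k) * (2 : ℝ) ^ (ps J).card / 2 ^ (k * Fintype.card (Ix k0)) else 0 := by
      refine sum_le_sum_of_subset_of_nonneg (subset_univ _) fun z _ _ => ?_
      split_ifs
      · positivity
      · exact le_refl _
    refine h2.trans ?_
    rw [← sum_filter, sum_const, nsmul_eq_mul, filter_mem_eq_inter, univ_inter]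
    have h3 : (NG.card : ℝ) ≤ 3 * 2 ^ k * 2 ^ (k * Fintype.card (Ix k0)) / 2 ^ w := by
      rw [le_div_iff₀ (by positivity)]
      exact hbad
    have h4 : (0 : ℝ) < 2 ^ (k * Fintype.card (Ix k0)) := by positivity
    have h5 : (0 : ℝ) < 2 ^ w := by positivity
    calc (NG.card : ℝ) * (2 ^ (k * k) * 2 ^ (ps J).card / 2 ^ (k * Fintype.card (Ix k0))) ≤
          3 * 2 ^ k * 2 ^ (k * Fintype.card (Ix k0)) / 2 ^ w *
            (2 ^ (k * k) * 2 ^ (ps J).card / 2 ^ (k * Fintype.card (Ix k0))) :=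
          mul_le_mul_of_nonneg_right h3 (by positivity)
      _ = 3 * 2 ^ k * 2 ^ (k * k) / 2 ^ w * 2 ^ (ps J).card := by
          field_simp
      _ ≤ ε / 4 * 2 ^ (ps J).card := by
          refine mul_le_mul_of_nonneg_right ?_ hN.le
          rw [div_le_iff₀ h5]
          rw [div_lt_iff₀ (by linarith)] at hw
          linarith
  -- conclusion
  rw [e2]
  have hTe : (∑ z ∈ GG M k0 k, cs z) = T * 2 ^ (ps J).card := by
    rw [hT, e1, div_mul_cancel₀ _ hN.ne']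
  rw [hTe] at hdiff
  set W : ℝ := ∑ z ∈ GG M k0 k, ns z with hW
  have h1 : |W / 2 ^ (ps J).card - c2 * T| ≤ ε / 8 * T + ε / 4 := by
    have h2 : W / 2 ^ (ps J).card - c2 * T = (W - c2 * (T * 2 ^ (ps J).card)) / 2 ^ (ps J).card := by
      field_simp
    rw [h2, abs_div, abs_of_pos hN, div_le_iff₀ hN]
    refine hdiff.trans (le_of_eq ?_)
    ring
  have hT2 := le_min_iff.1 hT1
  have hT3 := abs_le.1 hT2.1
  have hT4 := abs_le.1 hT2.2
  have h3 : ε / 8 * T ≤ ε / 4 := by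
    have : T ≤ 2 := by linarith [hT3.2]
    calc ε / 8 * T ≤ ε / 8 * 2 := mul_le_mul_of_nonneg_left this (by linarith)
      _ = ε / 4 := by ring
  have h4 : |c2 * T - c2| ≤ ε / 4 := by
    have h5 : c2 * T - c2 = c2 * (T - 1) := by ring
    rw [h5, abs_mul, abs_of_nonneg c201.1]
    calc c2 * |T - 1| ≤ 1 * (ε / 4) :=
          mul_le_mul c201.2 hT2.2 (abs_nonneg _) (by norm_num)
      _ = ε / 4 := one_mul _
  have h6 := abs_le.1 h1
  have h7 := abs_le.1 h4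
  rw [abs_le]
  constructor
  · linarith [h6.1, h7.1]
  · linarith [h6.2, h7.2]

end Pool.Agent.N877.JT
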