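import Pool.Agent.N877.JT.Gen3
import Pool.Agent.N916.PQ.LB2

/-!
# JT: the statement of the joint law
-/

set_option autoImplicit false
set_option linter.all false

open scoped Classical

namespace Pool.Agent.N877.JT

open Finset Module
open Pool.Agent.N916.GB (ps sx eta)
open Pool.Agent.N916.MO (EE fx fy Sy Nde Ix Sg)
open Pool.Agent.N916.PQ (Hy Gc)
open Pool.Agent.Y703.CQ (c2)

/-- **the joint law**: the system `M` (with the Laplacian of a random symmetric function) has only the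
trivial solutions and the random alternating form `B` is nondegenerate: the probability is near to
`eta * c2` -/
def JMain : Prop := ∀ ε : ℝ, 0 < ε → ∃ V₀ : ℕ, ∀ (R C J E0 CC CC' : Type) [Fintype R] [Fintype C]
    [Fintype J] [LinearOrder J] [AddCommGroup E0] [Module (ZMod 2) E0] [Fintype E0] [Fintype CC]
    [Fintype CC'] (M : R ⊕ J → C ⊕ J → ZMod 2) (X : R ⊕ J → ZMod 2) (Y : C ⊕ J → ZMod 2)
    (u : J → ZMod 2) (k0 : J) (J₀ : Finset J) (n0 : ℕ)
    (B : EE E0 (Ix k0) →ₗ[ZMod 2] EE E0 (Ix k0) →ₗ[ZMod 2] ZMod 2) (ν υ : J → ZMod 2)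
    (m : Ix k0 → Ix k0 → ZMod 2) (F : EE E0 (Ix k0) → CC) (G : (Ix k0 → ZMod 2) → CC')
    (Φ Ψ : Ix k0 → E0 → CC → ZMod 2) (Θ : Ix k0 → CC' → ZMod 2),
    Hy M X Y u → Fintype.card C = Fintype.card R → Fintype.card R ≤ n0 →
    Fintype.card E0 ≤ 4 ^ n0 → Even (finrank (ZMod 2) E0) → Fintype.card CC ≤ 32 →
    Fintype.card CC' ≤ 4 → k0 ∉ J₀ → J₀.card ≤ 2 * n0 →
    Sf B (fun k : Ix k0 => ν k) (fun k : Ix k0 => υ k) m F G Φ Ψ Θ →
    (∀ e : E0, (∀ k : Ix k0, (k : J) ∈ J₀ → B (e, 0, 0) (fx k) = 0 ∧ B (e, 0, 0) (fy k) = 0) →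
      e = 0) →
    (∀ k l : Ix k0, m k l = M (Sum.inr (k : J)) (Sum.inr (l : J))) →
    V₀ * (n0 + 1) ≤ (univ.filter fun k : J => u k = 1).card →
    V₀ * (n0 + 1) ≤ (univ.filter fun k : J => ν k = 1).card →
    V₀ * (n0 + 1) ≤ (univ.filter fun k : J => υ k = 1).card →
    V₀ * (n0 + 1) ≤ (univ.filter fun k : J => ν k ≠ υ k).card →
    |((univ.filter fun σ : ps J → ZMod 2 => Gc M Y (sx σ) ∧ Nde B (Sg k0 σ)).card : ℝ) /
      2 ^ (ps J).card - eta * c2| ≤ ε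

end Pool.Agent.N877.JT
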