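import Pool.Agent.N877.JT.Cond
import Pool.Agent.N877.JT.Stm

/-!
# JT: the families of solutions of the system and the conditions on the symmetric matrix
-/

set_option autoImplicit false
set_option linter.all false

open scoped Classical

namespace Pool.Agent.N877.JT

open Finset Module
open Pool.Agent.N916.GB (ps sx eta Pc In)
open Pool.Agent.N916.MO (EE fx fy Sy Nde Ix Sg Lm Lm_ne sx_symm Sg_inj Sg_surj few sy_count)
open Pool.Agent.N916.PQ (Hy Gc Zs Kr yy ee ev mem_Zs Zs_coe_sum sum_ee GG card_Kr GG_li li_GG)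
open Pool.Agent.Y703.CQ (c2)

theorem Lm_Ev {V : Type} [Fintype V] [DecidableEq V] (N : V → V → ZMod 2) (y : V → ZMod 2) (i : V) :
    ∑ j, Lm N i j * y j = ∑ p, (y p + y i) * N i p := by
  rw [← Finset.add_sum_erase univ _ (mem_univ i), ← Finset.add_sum_erase univ
    (fun p => (y p + y i) * N i p) (mem_univ i)]
  have h1 : Lm N i i = ∑ k ∈ univ.erase i, N i k := by
    unfold Lm
    rw [if_pos rfl, ← Finset.add_sum_erase univ _ (mem_univ i), if_pos rfl, zero_add]
    exact sum_congr rfl fun k hk => if_neg (Finset.ne_of_mem_erase hk)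
  have h2 : ∑ j ∈ univ.erase i, Lm N i j * y j = ∑ j ∈ univ.erase i, N i j * y j :=
    sum_congr rfl fun j hj => by rw [Lm_ne _ (Finset.ne_of_mem_erase hj).symm]
  rw [h1, h2, aa, zero_mul, zero_add, sum_mul, ← sum_add_distrib]
  exact sum_congr rfl fun j _ => by ring

section
variable {R C J : Type} [Fintype R] [Fintype C] [Fintype J] [LinearOrder J]
  {M : R ⊕ J → C ⊕ J → ZMod 2} {X : R ⊕ J → ZMod 2} {Y : C ⊕ J → ZMod 2} {u : J → ZMod 2}
  {k0 : J} {k : ℕ}

/-- the large coordinates outside `k0` -/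
def yI (z : Fin k → Zs M k0) (j : Fin k) (i : Ix k0) : ZMod 2 := yy z j i

/-- the equations outside `k0` -/
def eI (z : Fin k → Zs M k0) (j : Fin k) (i : Ix k0) : ZMod 2 := ee z j i

theorem sum_k0 (f : J → ZMod 2) (h : f k0 = 0) : ∑ l, f l = ∑ l : Ix k0, f l := by
  rw [Fintype.sum_eq_add_sum_subtype_ne f k0, h, zero_add]

theorem row_eq (z : Fin k → Zs M k0) (j : Fin k) (σ : ps J → ZMod 2) (i : Ix k0) :
    ∑ l : Ix k0, (Sg k0 σ).1 i l * yI z j l = ∑ p, (yy z j p + yy z j i) * sx σ i p := by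
  rw [← Lm_Ev (sx σ) (yy z j) (i : J), sum_k0 (k0 := k0) (fun l => Lm (sx σ) i l * yy z j l)]
  · rfl
  · have h : yy z j k0 = 0 := (mem_Zs.1 (z j).2).1
    rw [h, mul_zero]

/-- the conditions on the symbols are conditions on the symmetric matrix -/
theorem Pc_Sol (H : Hy M X Y u) (z : Fin k → Zs M k0) (σ : ps J → ZMod 2) :
    Pc (yy z) (ee z) σ ↔ Sol (yI z) (eI z) (Sg k0 σ) := by
  constructor
  · intro h j i
    rw [row_eq]
    exact (e01 (h j i)).symm
  · intro h
    have h1 : ∀ (j : Fin k) (l : J), l ≠ k0 →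
        ee z j l + ∑ m, (yy z j m + yy z j l) * sx σ l m = 0 := by
      intro j l hl
      have h2 := h j ⟨l, hl⟩
      rw [row_eq] at h2
      rw [h2]
      exact aa _
    intro j l
    by_cases hl : l = k0
    · subst hl
      have h2 : ∑ l', (ee z j l' + ∑ m, (yy z j m + yy z j l') * sx σ l' m) = 0 := by
        rw [sum_add_distrib, sum_ee H z j, zero_add]
        have e1 : ∑ l', ∑ m, (yy z j m + yy z j l') * sx σ l' m =
            ∑ l', ∑ m, yy z j m * sx σ l' m + ∑ l', ∑ m, yy z j l' * sx σ l' m := by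
          rw [← sum_add_distrib]
          refine sum_congr rfl fun l' _ => ?_
          rw [← sum_add_distrib]
          exact sum_congr rfl fun m _ => add_mul _ _ _
        have e2 : ∑ l', ∑ m, yy z j m * sx σ l' m = ∑ l', ∑ m, yy z j l' * sx σ l' m := by
          rw [sum_comm]
          refine sum_congr rfl fun l' _ => sum_congr rfl fun m _ => ?_
          rw [sx_symm]
        rw [e1, e2, aa]
      rw [Fintype.sum_eq_add_sum_subtype_ne _ l] at h2
      have h3 : ∑ i : {i // i ≠ l}, (ee z j i + ∑ m, (yy z j m + yy z j i) * sx σ i m) = 0 :=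
        sum_eq_zero fun i _ => h1 j i i.2
      rw [h3, add_zero] at h2
      exact h2
    · exact h1 j l hl

theorem card_Sg' (Q : Sy (Ix k0) → Prop) :
    (univ.filter fun σ : ps J → ZMod 2 => Q (Sg k0 σ)).card = (univ.filter Q).card := by
  refine card_bij (fun σ _ => Sg k0 σ) ?_ ?_ ?_
  · intro σ hσ
    rw [mem_filter] at hσ ⊢
    exact ⟨mem_univ _, hσ.2⟩
  · intro σ _ σ' _ h
    exact Sg_inj h
  · intro s hs
    obtain ⟨σ, rfl⟩ := Sg_surj s
    exact ⟨σ, mem_filter.2 ⟨mem_univ _, (mem_filter.1 hs).2⟩, rfl⟩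

theorem card_SyI : (Fintype.card (Sy (Ix k0)) : ℝ) = 2 ^ (ps J).card := by
  have := Fintype.card_of_bijective (f := Sg k0) ⟨Sg_inj, Sg_surj⟩
  rw [Fintype.card_fun, ZMod.card, Fintype.card_coe] at this
  rw [← this]
  push_cast
  rfl

/-- the families in `GG` have independent coordinates outside `k0` -/
theorem GG_ind {z : Fin k → Zs M k0} (hz : z ∈ GG M k0 k) : LinearIndependent (ZMod 2) (yI z) := by
  rw [Fintype.linearIndependent_iff]
  intro c hc
  unfold GG at hz
  rw [mem_filter] at hz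
  refine hz.2 c fun l => ?_
  by_cases hl : l = k0
  · subst hl
    refine sum_eq_zero fun i _ => ?_
    have h : yy z i l = 0 := (mem_Zs.1 (z i).2).1
    rw [h, mul_zero]
  · have h := congrFun hc ⟨l, hl⟩
    rw [Finset.sum_apply] at h
    exact h

/-- the number of the matrices with given products -/
theorem sol_bound {z : Fin k → Zs M k0} (hz : z ∈ GG M k0 k) :
    ((univ.filter fun s : Sy (Ix k0) => Sol (yI z) (eI z) s).card : ℝ) *
      2 ^ (k * Fintype.card (Ix k0)) ≤ 2 ^ (k * k) * Fintype.card (Sy (Ix k0)) := by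
  have h := sy_count (GG_ind hz) univ (fun _ i hi => absurd (mem_univ i) hi) (eI z)
  have h2 : (univ.filter fun s : Sy (Ix k0) => Sol (yI z) (eI z) s).card ≤
      (univ.filter fun s : Sy (Ix k0) => ∀ i, ∀ k ∈ univ, ∑ l, s.1 k l * yI z i l = eI z i k).card := by
    refine card_le_card fun s hs => ?_
    rw [mem_filter] at hs ⊢
    exact ⟨mem_univ _, fun i l _ => hs.2 i l⟩
  have h3 := (Nat.mul_le_mul_right (2 ^ (k * (univ : Finset (Ix k0)).card)) h2).trans h
  rw [Finset.card_univ] at h3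
  exact_mod_cast h3

/-- the moments with a weight -/
theorem In_sum (H : Hy M X Y u) (Q : (ps J → ZMod 2) → Prop) :
    (∑ σ : ps J → ZMod 2, if Q σ then In k (finrank (ZMod 2) (Kr M k0 (sx σ))) else 0) =
      ∑ z ∈ GG M k0 k, ((univ.filter fun σ : ps J → ZMod 2 => Pc (yy z) (ee z) σ ∧ Q σ).card : ℝ) := by
  simp only [card_filter, Nat.cast_sum]
  rw [sum_comm]
  refine sum_congr rfl fun σ _ => ?_
  by_cases hQ : Q σ
  · rw [if_pos hQ, card_Kr M k0 k σ, card_filter, Nat.cast_sum]
    unfold GG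
    rw [sum_filter]
    refine sum_congr rfl fun z _ => ?_
    by_cases hz : z ∈ GG M k0 k
    · have hz' := hz
      unfold GG at hz'
      rw [mem_filter] at hz'
      rw [if_pos hz'.2]
      have := GG_li hz
      by_cases hσ : Pc (yy z) (ee z) σ
      · rw [if_pos ⟨this, hσ⟩, if_pos ⟨hσ, hQ⟩]
      · rw [if_neg fun h => hσ h.2, if_neg fun h => hσ h.1]
    · have hz' := hz
      unfold GG at hz'
      rw [mem_filter] at hz'
      rw [if_neg fun h => hz' ⟨mem_univ _, h⟩, if_neg, Nat.cast_zero]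
      rintro ⟨h1, h2⟩
      exact hz (li_GG H h1 h2)
  · rw [if_neg hQ]
    symm
    refine sum_eq_zero fun z _ => ?_
    rw [if_neg fun h => hQ h.2, Nat.cast_zero]

end

end Pool.Agent.N877.JT
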