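import Pool.Agent.N877.JT.Gen3

/-!
# JT: the symmetric matrices with given products, and the forms on a complement
-/

set_option autoImplicit false
set_option linter.all false

open scoped Classical

namespace Pool.Agent.N877.JT

open Finset Module
open Pool.Agent.N916.MO (EE fx fy sB sB_apply sB_add sB_fx sB_fy Sy Nde mem_Sy sB_alt)

theorem aa (a : ZMod 2) : a + a = 0 := by
  revert a
  decide

theorem e01 {a b : ZMod 2} (h : a + b = 0) : a = b := by
  revert a b
  decide

/-- the indices outside `P` -/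
abbrev Rs {I : Type} (P : Finset I) : Type := {i : I // i ∉ P}

section
variable {E0 I : Type} [AddCommGroup E0] [Module (ZMod 2) E0] [Fintype I] [DecidableEq I] {k : ℕ}

/-- extension by zero -/
def ex (P : Finset I) (x : Rs P → ZMod 2) (i : I) : ZMod 2 := if h : i ∉ P then x ⟨i, h⟩ else 0

theorem ex_in {P : Finset I} (x : Rs P → ZMod 2) (i : Rs P) : ex P x i = x i := dif_pos i.2

theorem ex_out {P : Finset I} (x : Rs P → ZMod 2) {i : I} (h : i ∈ P) : ex P x i = 0 :=
  dif_neg (not_not.2 h)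

theorem ex_add {P : Finset I} (x y : Rs P → ZMod 2) (i : I) : ex P (x + y) i = ex P x i + ex P y i := by
  unfold ex
  by_cases h : i ∉ P
  · rw [dif_pos h, dif_pos h, dif_pos h]
    rfl
  · rw [dif_neg h, dif_neg h, dif_neg h, add_zero]

theorem ex_smul {P : Finset I} (c : ZMod 2) (x : Rs P → ZMod 2) (i : I) :
    ex P (c • x) i = c * ex P x i := by
  unfold ex
  by_cases h : i ∉ P
  · rw [dif_pos h, dif_pos h]
    rfl
  · rw [dif_neg h, dif_neg h, mul_zero]

theorem sum_ex {P : Finset I} (f : I → ZMod 2) (x : Rs P → ZMod 2) :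
    ∑ i, f i * ex P x i = ∑ i : Rs P, f i * x i := by
  have h1 : ∑ i ∈ univ.filter (fun i : I => i ∉ P), f i * ex P x i = ∑ i, f i * ex P x i := by
    refine sum_subset (filter_subset _ _) fun i _ hi => ?_
    have : i ∈ P := by
      by_contra h
      exact hi (mem_filter.2 ⟨mem_univ _, h⟩)
    rw [ex_out x this, mul_zero]
  rw [← h1, Finset.sum_subtype (univ.filter fun i : I => i ∉ P) (p := fun i => i ∉ P)
    (fun i => by simp)]
  refine sum_congr rfl fun l _ => ?_
  rw [ex_in]

/-- the combinations -/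
def cm (P : Finset I) (y : Fin k → I → ZMod 2) (a : Fin k → ZMod 2) (x : Rs P → ZMod 2) (i : I) :
    ZMod 2 := ∑ j, a j * y j i + ex P x i

theorem cm_add (P : Finset I) (y : Fin k → I → ZMod 2) (a a' : Fin k → ZMod 2)
    (x x' : Rs P → ZMod 2) : cm P y (a + a') (x + x') = cm P y a x + cm P y a' x' := by
  funext i
  show cm P y (a + a') (x + x') i = cm P y a x i + cm P y a' x' i
  unfold cm
  rw [ex_add]
  have : ∑ j, (a + a') j * y j i = ∑ j, a j * y j i + ∑ j, a' j * y j i := by
    rw [← sum_add_distrib]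
    exact sum_congr rfl fun j _ => by rw [Pi.add_apply, add_mul]
  rw [this]
  ring

theorem cm_smul (P : Finset I) (y : Fin k → I → ZMod 2) (c : ZMod 2) (a : Fin k → ZMod 2)
    (x : Rs P → ZMod 2) : cm P y (c • a) (c • x) = c • cm P y a x := by
  funext i
  show cm P y (c • a) (c • x) i = c * cm P y a x i
  unfold cm
  rw [ex_smul, mul_add, mul_sum]
  congr 1
  exact sum_congr rfl fun j _ => by rw [Pi.smul_apply, smul_eq_mul]; ring

/-- the space of the new fixed parts -/
abbrev E1 (E0 : Type) (k : ℕ) : Type := E0 × (Fin k → ZMod 2) × (Fin k → ZMod 2)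

/-- the new coordinates -/
def Ph (E0 : Type) [AddCommGroup E0] [Module (ZMod 2) E0] (P : Finset I) (y : Fin k → I → ZMod 2) :
    EE (E1 E0 k) (Rs P) →ₗ[ZMod 2] EE E0 I where
  toFun z := (z.1.1, cm P y z.1.2.1 z.2.1, cm P y z.1.2.2 z.2.2)
  map_add' z w := by
    refine Prod.ext rfl (Prod.ext ?_ ?_)
    · exact cm_add P y _ _ _ _
    · exact cm_add P y _ _ _ _
  map_smul' c z := by
    refine Prod.ext rfl (Prod.ext ?_ ?_)
    · exact cm_smul P y _ _ _
    · exact cm_smul P y _ _ _

theorem Ph_apply (P : Finset I) (y : Fin k → I → ZMod 2) (z : EE (E1 E0 k) (Rs P)) :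
    Ph E0 P y z = (z.1.1, cm P y z.1.2.1 z.2.1, cm P y z.1.2.2 z.2.2) := rfl

/-- `P` is a set of pivots for `y` -/
def Piv (P : Finset I) (y : Fin k → I → ZMod 2) : Prop :=
  P.card = k ∧ ∀ a : Fin k → ZMod 2, (∀ p ∈ P, ∑ j, a j * y j p = 0) → a = 0

/-- the map of the combinations -/
def cmL (P : Finset I) (y : Fin k → I → ZMod 2) :
    ((Fin k → ZMod 2) × (Rs P → ZMod 2)) →ₗ[ZMod 2] (I → ZMod 2) where
  toFun z := cm P y z.1 z.2
  map_add' z w := cm_add P y _ _ _ _
  map_smul' c z := cm_smul P y _ _ _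

theorem cm_inj {P : Finset I} {y : Fin k → I → ZMod 2} (hP : Piv P y) :
    Function.Injective (cmL P y) := by
  rw [injective_iff_map_eq_zero]
  rintro ⟨a, x⟩ h
  have h1 : ∀ i, ∑ j, a j * y j i + ex P x i = 0 := fun i => congrFun h i
  have h2 : a = 0 := hP.2 a fun p hp => by
    have := h1 p
    rwa [ex_out x hp, add_zero] at this
  refine Prod.ext h2 (funext fun i => ?_)
  have h3 := h1 i
  rw [h2, ex_in] at h3
  have h4 : ∑ j, (0 : Fin k → ZMod 2) j * y j i = 0 := sum_eq_zero fun j _ => zero_mul _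
  rw [h4, zero_add] at h3
  exact h3

theorem cm_bij {P : Finset I} {y : Fin k → I → ZMod 2} (hP : Piv P y) :
    Function.Bijective (cmL P y) := by
  rw [Fintype.bijective_iff_injective_and_card]
  refine ⟨cm_inj hP, ?_⟩
  rw [Fintype.card_prod, Fintype.card_fun, Fintype.card_fun, Fintype.card_fun, ZMod.card,
    Fintype.card_fin, ← pow_add]
  congr 1
  have h := Fintype.card_subtype_compl (fun i : I => i ∈ P)
  rw [Fintype.card_coe] at h
  have h2 : P.card ≤ Fintype.card I := card_le_univ P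
  rw [hP.1] at h h2
  have h3 : Fintype.card (Rs P) = Fintype.card I - k := h
  omega

/-- the map of the combinations as an equivalence -/
noncomputable def cmE {P : Finset I} {y : Fin k → I → ZMod 2} (hP : Piv P y) :
    ((Fin k → ZMod 2) × (Rs P → ZMod 2)) ≃ₗ[ZMod 2] (I → ZMod 2) :=
  LinearEquiv.ofBijective (cmL P y) (cm_bij hP)

theorem cmE_apply {P : Finset I} {y : Fin k → I → ZMod 2} (hP : Piv P y)
    (z : (Fin k → ZMod 2) × (Rs P → ZMod 2)) : cmE hP z = cm P y z.1 z.2 := rfl

theorem Ph_bij {P : Finset I} {y : Fin k → I → ZMod 2} (hP : Piv P y) :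
    Function.Bijective (Ph E0 P y) := by
  constructor
  · rw [injective_iff_map_eq_zero]
    rintro ⟨⟨e, a, b⟩, x, x'⟩ h
    rw [Ph_apply, Prod.ext_iff, Prod.ext_iff] at h
    obtain ⟨h1, h2, h3⟩ := h
    have h4 : ((a, x) : (Fin k → ZMod 2) × (Rs P → ZMod 2)) = 0 :=
      (injective_iff_map_eq_zero _).1 (cm_inj hP) _ h2
    have h5 : ((b, x') : (Fin k → ZMod 2) × (Rs P → ZMod 2)) = 0 :=
      (injective_iff_map_eq_zero _).1 (cm_inj hP) _ h3
    rw [Prod.ext_iff] at h4 h5
    obtain ⟨rfl, rfl⟩ := h4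
    obtain ⟨rfl, rfl⟩ := h5
    have h6 : e = 0 := h1
    rw [h6]
    rfl
  · rintro ⟨e, X, Z⟩
    obtain ⟨⟨a, x⟩, h1⟩ := (cm_bij hP).2 X
    obtain ⟨⟨b, x'⟩, h2⟩ := (cm_bij hP).2 Z
    exact ⟨⟨⟨e, a, b⟩, x, x'⟩, Prod.ext rfl (Prod.ext h1 h2)⟩

/-- the restriction of the symmetric matrices -/
def rs (P : Finset I) (s : Sy I) : Sy (Rs P) := ⟨fun i l => s.1 i l, fun i l => s.2 i l⟩

theorem rs_add (P : Finset I) (s t : Sy I) : rs P (s + t) = rs P s + rs P t := rfl

/-- the matrices with vanishing products -/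
theorem sB_Ph {P : Finset I} {y : Fin k → I → ZMod 2} {t : Sy I}
    (ht : ∀ j i, ∑ l, t.1 i l * y j l = 0) (z w : EE (E1 E0 k) (Rs P)) :
    sB t.1 (Ph E0 P y z) (Ph E0 P y w) = sB (rs P t).1 z w := by
  -- one term
  have key : ∀ (a b : Fin k → ZMod 2) (x x' : Rs P → ZMod 2),
      ∑ i, ∑ l, t.1 i l * (cm P y a x i * cm P y b x' l) =
        ∑ i : Rs P, ∑ l : Rs P, t.1 i l * (x i * x' l) := by
    intro a b x x'
    have h1 : ∀ i, ∑ l, t.1 i l * cm P y b x' l = ∑ l : Rs P, t.1 i l * x' l := by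
      intro i
      unfold cm
      simp only [mul_add, sum_add_distrib]
      rw [sum_ex (fun l => t.1 i l) x']
      have : ∑ l, t.1 i l * ∑ j, b j * y j l = 0 := by
        simp only [mul_sum]
        rw [sum_comm]
        refine sum_eq_zero fun j _ => ?_
        have h2 : ∑ l, t.1 i l * (b j * y j l) = b j * ∑ l, t.1 i l * y j l := by
          rw [mul_sum]
          exact sum_congr rfl fun l _ => by ring
        rw [h2, ht, mul_zero]
      rw [this, zero_add]
    have h2 : ∀ i, ∑ l, t.1 i l * (cm P y a x i * cm P y b x' l) =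
        cm P y a x i * ∑ l : Rs P, t.1 i l * x' l := by
      intro i
      rw [← h1, mul_sum]
      exact sum_congr rfl fun l _ => by ring
    rw [sum_congr rfl fun i _ => h2 i]
    have h3 : ∑ i, cm P y a x i * ∑ l : Rs P, t.1 i l * x' l =
        ∑ l : Rs P, x' l * ∑ i, t.1 l i * cm P y a x i := by
      simp only [mul_sum]
      rw [sum_comm]
      refine sum_congr rfl fun l _ => sum_congr rfl fun i _ => ?_
      rw [t.2 l i]
      ring
    rw [h3]
    have h4 : ∀ l : Rs P, ∑ i, t.1 l i * cm P y a x i = ∑ i : Rs P, t.1 l i * x i := by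
      intro l
      unfold cm
      simp only [mul_add, sum_add_distrib]
      rw [sum_ex (fun i => t.1 l i) x]
      have : ∑ i, t.1 l i * ∑ j, a j * y j i = 0 := by
        simp only [mul_sum]
        rw [sum_comm]
        refine sum_eq_zero fun j _ => ?_
        have h2 : ∑ i, t.1 l i * (a j * y j i) = a j * ∑ i, t.1 l i * y j i := by
          rw [mul_sum]
          exact sum_congr rfl fun l _ => by ring
        rw [h2, ht, mul_zero]
      rw [this, zero_add]
    rw [sum_congr rfl fun l _ => by rw [h4 l]]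
    simp only [mul_sum]
    rw [sum_comm]
    refine sum_congr rfl fun i _ => sum_congr rfl fun l _ => ?_
    rw [t.2 l i]
    ring
  rw [sB_apply, sB_apply]
  have e1 : ∀ (s : I → I → ZMod 2) (f g : I → ZMod 2) (f' g' : I → ZMod 2),
      ∑ i, ∑ l, s i l * (f i * g l + f' i * g' l) =
        ∑ i, ∑ l, s i l * (f i * g l) + ∑ i, ∑ l, s i l * (f' i * g' l) := by
    intro s f g f' g'
    simp only [mul_add, sum_add_distrib]
  have e2 : ∀ (s : Rs P → Rs P → ZMod 2) (f g : Rs P → ZMod 2) (f' g' : Rs P → ZMod 2),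
      ∑ i, ∑ l, s i l * (f i * g l + f' i * g' l) =
        ∑ i, ∑ l, s i l * (f i * g l) + ∑ i, ∑ l, s i l * (f' i * g' l) := by
    intro s f g f' g'
    simp only [mul_add, sum_add_distrib]
  rw [e1, e2]
  congr 1
  · exact key _ _ _ _
  · exact key _ _ _ _

/-- a symmetric matrix is determined by its form -/
theorem sy_ext {t : Sy I} (h : ∀ X Y : I → ZMod 2, ∑ i, ∑ l, t.1 i l * (X i * Y l) = 0) : t = 0 := by
  refine Subtype.ext (funext fun i => funext fun l => ?_)
  have h1 := h (Pi.single i 1) (Pi.single l 1)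
  have h2 : ∑ i', ∑ l', t.1 i' l' * ((Pi.single i 1 : I → ZMod 2) i' * (Pi.single l 1 : I → ZMod 2) l') =
      t.1 i l := by
    rw [sum_eq_single i]
    · rw [sum_eq_single l]
      · rw [Pi.single_eq_same, Pi.single_eq_same, mul_one, mul_one]
      · intro l' _ hl'
        rw [Pi.single_eq_of_ne hl', mul_zero, mul_zero]
      · intro h
        exact absurd (mem_univ l) h
    · intro i' _ hi'
      refine sum_eq_zero fun l' _ => ?_
      rw [Pi.single_eq_of_ne hi', zero_mul, mul_zero]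
    · intro h
      exact absurd (mem_univ i) h
  rw [h2] at h1
  exact h1

/-- the matrices with the given products -/
def Sol (y ev : Fin k → I → ZMod 2) (s : Sy I) : Prop := ∀ j i, ∑ l, s.1 i l * y j l = ev j i

theorem sol_add {y ev : Fin k → I → ZMod 2} {s t : Sy I} (hs : Sol y ev s) (ht : Sol y ev t) (j : Fin k)
    (i : I) : ∑ l, (s + t).1 i l * y j l = 0 := by
  have h : ∑ l, (s + t).1 i l * y j l = ∑ l, s.1 i l * y j l + ∑ l, t.1 i l * y j l := by
    rw [← sum_add_distrib]
    refine sum_congr rfl fun l _ => ?_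
    show (s.1 i l + t.1 i l) * y j l = _
    ring
  rw [h, hs j i, ht j i, aa]

theorem bil_zero {P : Finset I} {y : Fin k → I → ZMod 2} (hP : Piv P y) {t : Sy I}
    (ht : ∀ j i, ∑ l, t.1 i l * y j l = 0) (h0 : rs P t = 0) : t = 0 := by
  refine sy_ext fun X Y => ?_
  obtain ⟨⟨a, x⟩, rfl⟩ := (cm_bij hP).2 X
  obtain ⟨⟨b, x'⟩, rfl⟩ := (cm_bij hP).2 Y
  have h := sB_Ph (E0 := Unit) (P := P) ht (((), a, 0), x, 0) (((), 0, b), 0, x')
  have e0 : cm P y (0 : Fin k → ZMod 2) (0 : Rs P → ZMod 2) = 0 := (cmL P y).map_zero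
  rw [sB_apply, sB_apply, Ph_apply, Ph_apply] at h
  simp only [e0] at h
  have e1 : ∑ i, ∑ l, t.1 i l * (cm P y a x i * cm P y b x' l + (0 : I → ZMod 2) i *
      (0 : I → ZMod 2) l) = ∑ i, ∑ l, t.1 i l * (cm P y a x i * cm P y b x' l) := by
    refine sum_congr rfl fun i _ => sum_congr rfl fun l _ => ?_
    rw [Pi.zero_apply, zero_mul, add_zero]
  rw [e1] at h
  show ∑ i, ∑ l, t.1 i l * (cm P y a x i * cm P y b x' l) = 0
  rw [h]
  refine sum_eq_zero fun i _ => sum_eq_zero fun l _ => ?_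
  have e2 : (rs P t).1 i l = 0 := by
    rw [h0]
    rfl
  rw [e2, zero_mul]

/-- the extension of a symmetric matrix of the complement -/
theorem rs_surj {P : Finset I} {y : Fin k → I → ZMod 2} (hP : Piv P y) (r : Sy (Rs P)) :
    ∃ t : Sy I, (∀ j i, ∑ l, t.1 i l * y j l = 0) ∧ rs P t = r := by
  let π : (I → ZMod 2) →ₗ[ZMod 2] (Rs P → ZMod 2) :=
    (LinearMap.snd (ZMod 2) (Fin k → ZMod 2) (Rs P → ZMod 2)).comp (cmE hP).symm.toLinearMap
  have π1 : ∀ (a : Fin k → ZMod 2) (x : Rs P → ZMod 2), π (cm P y a x) = x := by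
    intro a x
    have : (cmE hP).symm (cm P y a x) = (a, x) := by
      rw [LinearEquiv.symm_apply_eq]
      rfl
    show ((cmE hP).symm (cm P y a x)).2 = x
    rw [this]
  let b : I → Rs P → ZMod 2 := fun i => π (Pi.single i 1)
  have πs : ∀ (X : I → ZMod 2) (p : Rs P), π X p = ∑ i, b i p * X i := by
    intro X p
    have h1 : X = ∑ i, X i • (Pi.single i 1 : I → ZMod 2) := by
      funext l
      rw [Finset.sum_apply]
      simp [Pi.single_apply]
    conv_lhs => rw [h1]
    rw [map_sum, Finset.sum_apply]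
    refine sum_congr rfl fun i _ => ?_
    rw [map_smul, Pi.smul_apply, smul_eq_mul, mul_comm]
  let t : Sy I := ⟨fun i l => ∑ p, ∑ q, r.1 p q * (b i p * b l q), fun i l => by
    show ∑ p, ∑ q, r.1 p q * (b i p * b l q) = ∑ p, ∑ q, r.1 p q * (b l p * b i q)
    rw [sum_comm]
    refine sum_congr rfl fun p _ => sum_congr rfl fun q _ => ?_
    rw [r.2 p q]
    ring⟩
  have ht : ∀ (i : I) (X : I → ZMod 2), ∑ l, t.1 i l * X l = ∑ p, ∑ q, r.1 p q * (b i p * π X q) := by
    intro i X
    have h1 : ∀ l, t.1 i l * X l = ∑ p, ∑ q, r.1 p q * (b i p * (b l q * X l)) := by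
      intro l
      show (∑ p, ∑ q, r.1 p q * (b i p * b l q)) * X l = _
      rw [sum_mul]
      refine sum_congr rfl fun p _ => ?_
      rw [sum_mul]
      exact sum_congr rfl fun q _ => by ring
    rw [sum_congr rfl fun l _ => h1 l, sum_comm]
    refine sum_congr rfl fun p _ => ?_
    rw [sum_comm]
    refine sum_congr rfl fun q _ => ?_
    rw [πs X q, mul_sum, mul_sum]
  refine ⟨t, fun j i => ?_, ?_⟩
  · rw [ht]
    have h1 : y j = cm P y (Pi.single j 1) 0 := by
      funext l
      unfold cm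
      have h2 : ex P (0 : Rs P → ZMod 2) l = 0 := by
        unfold ex
        split_ifs <;> rfl
      rw [h2, add_zero, sum_eq_single j]
      · rw [Pi.single_eq_same, one_mul]
      · intro j' _ hj'
        rw [Pi.single_eq_of_ne hj', zero_mul]
      · intro h
        exact absurd (mem_univ j) h
    have h2 : π (y j) = 0 := by
      rw [h1]
      exact π1 _ _
    refine sum_eq_zero fun p _ => sum_eq_zero fun q _ => ?_
    rw [h2, Pi.zero_apply, mul_zero, mul_zero]
  · have hb : ∀ i : Rs P, b i = Pi.single i 1 := by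
      intro i
      have h1 : (Pi.single (i : I) 1 : I → ZMod 2) = cm P y 0 (Pi.single i 1) := by
        funext l
        unfold cm
        have h2 : ∑ j, (0 : Fin k → ZMod 2) j * y j l = 0 := sum_eq_zero fun j _ => zero_mul _
        rw [h2, zero_add]
        by_cases hl : l ∈ P
        · rw [ex_out _ hl, Pi.single_eq_of_ne]
          rintro rfl
          exact i.2 hl
        · have : ex P (Pi.single i 1 : Rs P → ZMod 2) l = (Pi.single i 1 : Rs P → ZMod 2) ⟨l, hl⟩ :=
            ex_in _ ⟨l, hl⟩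
          rw [this, Pi.single_apply, Pi.single_apply]
          by_cases h : l = i
          · rw [if_pos h, if_pos (Subtype.ext h)]
          · rw [if_neg h, if_neg fun h' => h (congrArg Subtype.val h')]
      show π (Pi.single (i : I) 1) = _
      rw [h1]
      exact π1 _ _
    refine Subtype.ext (funext fun i => funext fun l => ?_)
    show ∑ p, ∑ q, r.1 p q * (b i p * b l q) = r.1 i l
    rw [hb, hb, sum_eq_single i]
    · rw [sum_eq_single l]
      · rw [Pi.single_eq_same, Pi.single_eq_same, mul_one, mul_one]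
      · intro q _ hq
        rw [Pi.single_eq_of_ne hq, mul_zero, mul_zero]
      · intro h
        exact absurd (mem_univ l) h
    · intro p _ hp
      refine sum_eq_zero fun q _ => ?_
      rw [Pi.single_eq_of_ne hp, zero_mul, mul_zero]
    · intro h
      exact absurd (mem_univ i) h

/-- **the new form** -/
def nB (B : EE E0 I →ₗ[ZMod 2] EE E0 I →ₗ[ZMod 2] ZMod 2) (P : Finset I) (y : Fin k → I → ZMod 2)
    (s0 : Sy I) : EE (E1 E0 k) (Rs P) →ₗ[ZMod 2] EE (E1 E0 k) (Rs P) →ₗ[ZMod 2] ZMod 2 :=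
  (B + sB s0.1).compl₁₂ (Ph E0 P y) (Ph E0 P y) + sB (rs P s0).1

theorem nB_apply (B : EE E0 I →ₗ[ZMod 2] EE E0 I →ₗ[ZMod 2] ZMod 2) (P : Finset I)
    (y : Fin k → I → ZMod 2) (s0 : Sy I) (z w : EE (E1 E0 k) (Rs P)) :
    nB B P y s0 z w = B (Ph E0 P y z) (Ph E0 P y w) + sB s0.1 (Ph E0 P y z) (Ph E0 P y w) +
      sB (rs P s0).1 z w := rfl

theorem nB_sol {B : EE E0 I →ₗ[ZMod 2] EE E0 I →ₗ[ZMod 2] ZMod 2} {P : Finset I}
    {y ev : Fin k → I → ZMod 2} {s0 s : Sy I} (h0 : Sol y ev s0) (hs : Sol y ev s)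
    (z w : EE (E1 E0 k) (Rs P)) :
    (nB B P y s0 + sB (rs P s).1 : EE (E1 E0 k) (Rs P) →ₗ[ZMod 2] _ →ₗ[ZMod 2] ZMod 2) z w =
      (B + sB s.1 : EE E0 I →ₗ[ZMod 2] EE E0 I →ₗ[ZMod 2] ZMod 2) (Ph E0 P y z) (Ph E0 P y w) := by
  have h1 := sB_Ph (E0 := E0) (P := P) (sol_add hs h0) z w
  rw [rs_add] at h1
  have e1 : sB (s + s0).1 (Ph E0 P y z) (Ph E0 P y w) = sB s.1 (Ph E0 P y z) (Ph E0 P y w) +
      sB s0.1 (Ph E0 P y z) (Ph E0 P y w) := by
    have : (s + s0).1 = s.1 + s0.1 := rfl
    rw [this, sB_add, LinearMap.add_apply, LinearMap.add_apply]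
  have e2 : sB (rs P s + rs P s0).1 z w = sB (rs P s).1 z w + sB (rs P s0).1 z w := by
    have : (rs P s + rs P s0).1 = (rs P s).1 + (rs P s0).1 := rfl
    rw [this, sB_add, LinearMap.add_apply, LinearMap.add_apply]
  rw [e1, e2] at h1
  rw [LinearMap.add_apply, LinearMap.add_apply, LinearMap.add_apply, LinearMap.add_apply, nB_apply]
  have h2 : ∀ b p q r t : ZMod 2, p + q = r + t → b + q + t + r = b + p := by decide
  exact h2 _ _ _ _ _ h1

/-- nondegeneracy -/
theorem nde_iff {B : EE E0 I →ₗ[ZMod 2] EE E0 I →ₗ[ZMod 2] ZMod 2} {P : Finset I}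
    {y ev : Fin k → I → ZMod 2} (hP : Piv P y) {s0 s : Sy I} (h0 : Sol y ev s0) (hs : Sol y ev s) :
    Nde B s ↔ Nde (nB B P y s0) (rs P s) := by
  obtain ⟨i1, i2⟩ := Ph_bij (E0 := E0) hP
  constructor
  · intro h z hz
    refine (injective_iff_map_eq_zero _).1 i1 z (h _ fun w => ?_)
    obtain ⟨w, rfl⟩ := i2 w
    rw [← nB_sol h0 hs]
    exact hz w
  · intro h z hz
    obtain ⟨z, rfl⟩ := i2 z
    rw [h z fun w => by rw [nB_sol h0 hs]; exact hz _, map_zero]

/-- **the reparametrization**: the proportion among the matrices with the given products -/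
theorem rp_card {P : Finset I} {y ev : Fin k → I → ZMod 2} (hP : Piv P y) {s0 : Sy I}
    (h0 : Sol y ev s0) (Q : Sy (Rs P) → Prop) :
    (univ.filter fun s : Sy I => Sol y ev s ∧ Q (rs P s)).card = (univ.filter Q).card := by
  refine card_bij (fun s _ => rs P s) ?_ ?_ ?_
  · intro s hs
    rw [mem_filter] at hs ⊢
    exact ⟨mem_univ _, hs.2.2⟩
  · intro s hs s' hs' h
    rw [mem_filter] at hs hs'
    have h1 : s + s' = 0 := by
      refine bil_zero hP (sol_add hs.2.1 hs'.2.1) ?_
      rw [rs_add, h]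
      exact Subtype.ext (funext fun i => funext fun l => aa _)
    refine Subtype.ext (funext fun i => funext fun l => ?_)
    have h2 : (s + s').1 i l = 0 := by
      rw [h1]
      rfl
    exact e01 h2
  · intro r hr
    obtain ⟨t, ht, htr⟩ := rs_surj hP (r + rs P s0)
    refine ⟨t + s0, mem_filter.2 ⟨mem_univ _, fun j i => ?_, ?_⟩, ?_⟩
    · have h : ∑ l, (t + s0).1 i l * y j l = ∑ l, t.1 i l * y j l + ∑ l, s0.1 i l * y j l := by
        rw [← sum_add_distrib]
        refine sum_congr rfl fun l _ => ?_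
        show (t.1 i l + s0.1 i l) * y j l = _
        ring
      rw [h, ht j i, h0 j i, zero_add]
    · have h : rs P (t + s0) = r := by
        rw [rs_add, htr, add_assoc]
        have : rs P s0 + rs P s0 = 0 := Subtype.ext (funext fun i => funext fun l => aa _)
        rw [this, add_zero]
      show Q (rs P (t + s0))
      rw [h]
      exact (mem_filter.1 hr).2
    · rw [rs_add, htr, add_assoc]
      have : rs P s0 + rs P s0 = 0 := Subtype.ext (funext fun i => funext fun l => aa _)
      rw [this, add_zero]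

end

end Pool.Agent.N877.JT
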